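import Pool.Agent.Lib.MP_6b611a_co.KS.Trans

/-! Barriers which contain two given vertices. -/

set_option autoImplicit false

open Finset
open scoped Classical

namespace Pool.Agent.Lib.MP_6b611a_co

variable {V E : Type} [Fintype V] [Fintype E]

/-- If the edges of `C` do not contain a perfect matching of the graph without `v` and `w`, there is
a barrier which contains `v` and `w`. -/
theorem barrier (s t : E → V) (hst : ∀ e, s e ≠ t e) (heven : Even (Fintype.card V)) (v w : V)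
    (hvw : v ≠ w) (C : Finset E)
    (hC : ¬ ∃ N : Finset E, N ⊆ C ∧ (∀ e ∈ N, v ∉ s(s e, t e) ∧ w ∉ s(s e, t e)) ∧
      ∀ x, x ≠ v → x ≠ w → ∃! e, e ∈ N ∧ x ∈ s(s e, t e)) :
    ∃ (S : Finset V) (𝒬 : Finset (Finset V)), v ∈ S ∧ w ∈ S ∧ S.card ≤ 𝒬.card ∧
      (∀ X ∈ 𝒬, Odd X.card) ∧ (∀ X ∈ 𝒬, Disjoint X S) ∧
      (∀ X ∈ 𝒬, ∀ Y ∈ 𝒬, X ≠ Y → Disjoint X Y) ∧ (∀ x, x ∉ S → ∃ X ∈ 𝒬, x ∈ X) ∧
      ∀ e ∈ FF s t S 𝒬, e ∉ C := by
  let V' : Type := {x : V // x ≠ v ∧ x ≠ w}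
  let E' : Type := {e : E // e ∈ C ∧ (s e ≠ v ∧ s e ≠ w) ∧ (t e ≠ v ∧ t e ≠ w)}
  let s' : E' → V' := fun e => ⟨s e.1, e.2.2.1⟩
  let t' : E' → V' := fun e => ⟨t e.1, e.2.2.2⟩
  have hmem : ∀ (e : E') (x : V'), x ∈ s(s' e, t' e) ↔ x.1 ∈ s(s e.1, t e.1) := by
    intro e x
    rw [Sym2.mem_iff, Sym2.mem_iff, Subtype.ext_iff, Subtype.ext_iff]
  have hcard : Fintype.card V' + 2 = Fintype.card V := by
    have h1 : Fintype.card V' = ((univ : Finset V) \ {v, w}).card := by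
      rw [Fintype.card_subtype]
      congr 1
      ext x
      simp [not_or]
    rw [h1, Finset.card_sdiff_of_subset (Finset.subset_univ _), Finset.card_pair hvw,
      Finset.card_univ]
    have h2 : ({v, w} : Finset V).card ≤ Fintype.card V := Finset.card_le_univ _
    rw [Finset.card_pair hvw] at h2
    omega
  have heven' : Even (Fintype.card V') := by
    rw [← hcard] at heven
    obtain ⟨a, ha⟩ := heven
    exact ⟨a - 1, by omega⟩
  obtain ⟨S', 𝒬', h1, h2, h3, h4, h5, h6⟩ := tutte_parts (gr s' t' univ) heven' (by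
    rintro ⟨M, hM⟩
    apply hC
    obtain ⟨N, _, hN⟩ := pm_of_gr s' t' univ M hM
    refine ⟨N.map (Function.Embedding.subtype _), ?_, ?_, ?_⟩
    · intro e he
      rw [Finset.mem_map] at he
      obtain ⟨e', _, rfl⟩ := he
      exact e'.2.1
    · intro e he
      rw [Finset.mem_map] at he
      obtain ⟨e', _, rfl⟩ := he
      have h7 := e'.2.2
      rw [Sym2.mem_iff, Sym2.mem_iff]
      change ¬ (v = s e'.1 ∨ v = t e'.1) ∧ ¬ (w = s e'.1 ∨ w = t e'.1)
      refine ⟨?_, ?_⟩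
      · rintro (h | h)
        · exact h7.1.1 h.symm
        · exact h7.2.1 h.symm
      · rintro (h | h)
        · exact h7.1.2 h.symm
        · exact h7.2.2 h.symm
    · intro x hx1 hx2
      obtain ⟨e', ⟨he1, he2⟩, heu⟩ := hN ⟨x, hx1, hx2⟩
      refine ⟨e'.1, ⟨Finset.mem_map.2 ⟨e', he1, rfl⟩, (hmem e' ⟨x, hx1, hx2⟩).1 he2⟩, ?_⟩
      rintro y ⟨hy1, hy2⟩
      rw [Finset.mem_map] at hy1
      obtain ⟨y', hy', rfl⟩ := hy1
      have h7 := heu y' ⟨hy', (hmem y' ⟨x, hx1, hx2⟩).2 hy2⟩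
      rw [h7]
      rfl)
  let ι : V' ↪ V := Function.Embedding.subtype _
  have hι : ∀ x : V', ι x = x.1 := fun _ => rfl
  have hmap : Function.Injective (fun X : Finset V' => X.map ι) := Finset.map_injective ι
  have hnotv : ∀ X : Finset V', v ∉ X.map ι := by
    intro X hX
    obtain ⟨x, _, hx⟩ := Finset.mem_map.1 hX
    exact x.2.1 hx
  have hnotw : ∀ X : Finset V', w ∉ X.map ι := by
    intro X hX
    obtain ⟨x, _, hx⟩ := Finset.mem_map.1 hX
    exact x.2.2 hx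
  have hmm : ∀ (X : Finset V') (x : V) (hx : x ≠ v ∧ x ≠ w), x ∈ X.map ι ↔ (⟨x, hx⟩ : V') ∈ X := by
    intro X x hx
    rw [Finset.mem_map]
    constructor
    · rintro ⟨y, hy, hyx⟩
      have : y = ⟨x, hx⟩ := Subtype.ext hyx
      rw [← this]
      exact hy
    · intro h
      exact ⟨_, h, rfl⟩
  refine ⟨insert v (insert w (S'.map ι)), 𝒬'.image (fun X => X.map ι), ?_, ?_, ?_, ?_, ?_, ?_,
    ?_, ?_⟩
  · exact Finset.mem_insert_self _ _
  · exact Finset.mem_insert_of_mem (Finset.mem_insert_self _ _)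
  · rw [Finset.card_image_of_injective _ hmap, Finset.card_insert_of_notMem, Finset.card_insert_of_notMem
      (hnotw S'), Finset.card_map]
    · exact h1
    · rw [Finset.mem_insert, not_or]
      exact ⟨hvw, hnotv S'⟩
  · intro X hX
    obtain ⟨Y, hY, rfl⟩ := Finset.mem_image.1 hX
    rw [Finset.card_map]
    exact h2 Y hY
  · intro X hX
    obtain ⟨Y, hY, rfl⟩ := Finset.mem_image.1 hX
    rw [Finset.disjoint_insert_right, Finset.disjoint_insert_right]
    exact ⟨hnotv Y, hnotw Y, (Finset.disjoint_map ι).2 (h3 Y hY)⟩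
  · intro X hX Y hY hXY
    obtain ⟨X', hX', rfl⟩ := Finset.mem_image.1 hX
    obtain ⟨Y', hY', rfl⟩ := Finset.mem_image.1 hY
    exact (Finset.disjoint_map ι).2 (h4 X' hX' Y' hY' fun h => hXY (by rw [h]))
  · intro x hx
    rw [Finset.mem_insert, Finset.mem_insert, not_or, not_or] at hx
    obtain ⟨X, hX, hxX⟩ := h5 ⟨x, hx.1, hx.2.1⟩ (fun h => hx.2.2 ((hmm S' x ⟨hx.1, hx.2.1⟩).2 h))
    exact ⟨_, Finset.mem_image_of_mem _ hX, (hmm X x ⟨hx.1, hx.2.1⟩).2 hxX⟩
  · intro e he heC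
    unfold FF at he
    obtain ⟨_, ha, hb, hX⟩ := Finset.mem_filter.1 he
    rw [Finset.mem_insert, Finset.mem_insert, not_or, not_or] at ha hb
    let e' : E' := ⟨e, heC, ⟨ha.1, ha.2.1⟩, ⟨hb.1, hb.2.1⟩⟩
    have ha' : s' e' ∉ S' := fun h => ha.2.2 ((hmm S' (s e) ⟨ha.1, ha.2.1⟩).2 h)
    have hb' : t' e' ∉ S' := fun h => hb.2.2 ((hmm S' (t e) ⟨hb.1, hb.2.1⟩).2 h)
    obtain ⟨X, hX1, hX2⟩ := h5 _ ha'
    have hadj : (gr s' t' univ).Adj (s' e') (t' e') := by
      refine ⟨?_, e', Finset.mem_univ _, rfl⟩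
      intro h
      exact hst e (congrArg Subtype.val h)
    have hX3 := h6 X hX1 (s' e') (t' e') hadj hb' hX2
    exact hX _ (Finset.mem_image_of_mem _ hX1)
      ⟨(hmm X (s e) ⟨ha.1, ha.2.1⟩).2 hX2, (hmm X (t e) ⟨hb.1, hb.2.1⟩).2 hX3⟩

/-- The parts with at least three vertices suffice. -/
theorem FF_filter (s t : E → V) (hst : ∀ e, s e ≠ t e) (S : Finset V) (𝒬 : Finset (Finset V))
    (hodd : ∀ X ∈ 𝒬, Odd X.card) :
    FF s t S (𝒬.filter fun X => 3 ≤ X.card) = FF s t S 𝒬 := by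
  ext e
  unfold FF
  rw [Finset.mem_filter, Finset.mem_filter]
  refine and_congr_right fun _ => and_congr_right fun _ => and_congr_right fun _ => ?_
  constructor
  · intro h X hX hXe
    by_cases h7 : 3 ≤ X.card
    · exact h X (Finset.mem_filter.2 ⟨hX, h7⟩) hXe
    · have h8 : X.card ≤ 1 := by
        obtain ⟨a, ha⟩ := hodd X hX
        omega
      exact hst e (Finset.card_le_one.1 h8 _ hXe.1 _ hXe.2)
  · intro h X hX
    exact h X (Finset.mem_filter.1 hX).1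

/-- The inequality for a barrier `S` with at least `|S|` parts. -/
theorem barrier_ineq (s t : E → V) (hst : ∀ e, s e ≠ t e) {r D : ℕ}
    (hD : ∑ v, (dd s t {v} - r) ≤ D)
    (hcut : ∀ X : Finset V, X.Nonempty → X ≠ univ → r ≤ dd s t X)
    (S : Finset V) (𝒬 : Finset (Finset V)) (hSne : S.Nonempty) (hcard : S.card ≤ 𝒬.card)
    (hodd : ∀ X ∈ 𝒬, Odd X.card) (hS : ∀ X ∈ 𝒬, Disjoint X S)
    (hdis : ∀ X ∈ 𝒬, ∀ Y ∈ 𝒬, X ≠ Y → Disjoint X Y) :
    ∑ X ∈ 𝒬.filter (fun X => 3 ≤ X.card), (dd s t X - r) + 2 * inn s t S ≤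
      D + 2 * (FF s t S (𝒬.filter fun X => 3 ≤ X.card)).card := by
  rw [FF_filter s t hst S 𝒬 hodd]
  have h7 := deg_count s t hst S 𝒬 hS hdis
  have h8 : ∑ v ∈ S, dd s t {v} ≤ S.card * r + D := by
    have h1 : ∑ v ∈ S, dd s t {v} ≤ ∑ v ∈ S, (r + (dd s t {v} - r)) :=
      Finset.sum_le_sum fun v _ => by omega
    rw [Finset.sum_add_distrib, Finset.sum_const, smul_eq_mul] at h1
    have h2 : ∑ v ∈ S, (dd s t {v} - r) ≤ ∑ v, (dd s t {v} - r) :=
      Finset.sum_le_sum_of_subset (Finset.subset_univ _)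
    omega
  have h9 : 𝒬.card * r + ∑ X ∈ 𝒬, (dd s t X - r) = ∑ X ∈ 𝒬, dd s t X := by
    rw [← smul_eq_mul, ← Finset.sum_const, ← Finset.sum_add_distrib]
    refine Finset.sum_congr rfl fun X hX => ?_
    have h1 : r ≤ dd s t X := by
      refine hcut X (Finset.card_pos.1 (hodd X hX).pos) ?_
      intro h
      obtain ⟨x, hx⟩ := hSne
      exact Finset.disjoint_left.1 (hS X hX) (by rw [h]; exact Finset.mem_univ x) hx
    omega
  have h10 : ∑ X ∈ 𝒬.filter (fun X => 3 ≤ X.card), (dd s t X - r) ≤ ∑ X ∈ 𝒬, (dd s t X - r) :=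
    Finset.sum_le_sum_of_subset (Finset.filter_subset _ _)
  have h11 : S.card * r ≤ 𝒬.card * r := Nat.mul_le_mul_right _ hcard
  omega

/-- The size of a part. -/
theorem part_size (heven : Even (Fintype.card V)) (v w : V) (hvw : v ≠ w) (S X : Finset V)
    (hv : v ∈ S) (hw : w ∈ S) (hXS : Disjoint X S) (hX : Odd X.card) :
    X.card + 3 ≤ Fintype.card V := by
  have h1 : ({v, w} : Finset V) ⊆ S := by
    intro x hx
    rw [Finset.mem_insert, Finset.mem_singleton] at hx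
    rcases hx with rfl | rfl
    · exact hv
    · exact hw
  have h2 : 2 ≤ S.card := by
    rw [← Finset.card_pair hvw]
    exact Finset.card_le_card h1
  have h3 : X.card + S.card ≤ Fintype.card V := by
    rw [← Finset.card_union_of_disjoint hXS]
    exact Finset.card_le_univ _
  obtain ⟨a, ha⟩ := heven
  obtain ⟨b, hb⟩ := hX
  omega

end Pool.Agent.Lib.MP_6b611a_co
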