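import Pool.Agent.Lib.MP_6b611a_co.SP.Barrier
import Pool.Agent.Lib.MP_6b611a_co.SP.Pick

/-! Perfect matchings through given edges at a vertex. -/

set_option autoImplicit false

open Finset
open scoped Classical

namespace Pool.Agent.Lib.MP_6b611a_co

/-- The numbers. -/
theorem numbers2 {k ℓ n r : ℕ} (hk : 2 ≤ k) (hn : 4 ≤ n) (hℓ : 2 * n ≤ 2 ^ ℓ) (hkℓ : k ≤ 2 ^ ℓ)
    (hr : 64 * (k * ℓ) ≤ r) : ∃ z : ℝ, 0 < z ∧ z ≤ 1 ∧ z ^ 16 = 1 - 1 / k ∧
      z ^ r * (2 * n : ℝ) ^ 4 ≤ 1 ∧ z ^ (4 * (24 * (k * ℓ))) * (2 * n : ℝ) ^ 6 ≤ 1 ∧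
      ∀ τ : ℕ, 5 * k * z ^ (4 * (4 * (k * ℓ) * (5 * τ + 2))) * (2 * n : ℝ) ^ (5 * τ) < 1 := by
  obtain ⟨z, hz, hz1, h16, hhalf⟩ := exists_z hk
  set a : ℝ := z ^ (16 * (k * ℓ)) with ha
  have ha0 : 0 < a := pow_pos hz _
  have ha1 : a ≤ 1 / 2 ^ ℓ := by
    rw [ha, show 16 * (k * ℓ) = 16 * k * ℓ by ring, pow_mul]
    refine (pow_le_pow_left₀ (pow_pos hz _).le hhalf ℓ).trans (le_of_eq ?_)
    rw [one_div_pow]
  have h2ℓ : (0 : ℝ) < 2 ^ ℓ := by positivity
  have hn0 : (0 : ℝ) < 2 * n := by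
    have : (0 : ℝ) < n := by exact_mod_cast (by omega : 0 < n)
    linarith
  have hnℓ : (2 * n : ℝ) ≤ 2 ^ ℓ := by exact_mod_cast hℓ
  have han : a * (2 * n) ≤ 1 := by
    have h1 : a * (2 * n) ≤ 1 / 2 ^ ℓ * 2 ^ ℓ := mul_le_mul ha1 hnℓ hn0.le (by positivity)
    rwa [one_div_mul_cancel h2ℓ.ne'] at h1
  have hak : a * k ≤ 1 := by
    have hkℓ' : (k : ℝ) ≤ 2 ^ ℓ := by exact_mod_cast hkℓ
    have h1 : a * k ≤ 1 / 2 ^ ℓ * 2 ^ ℓ := mul_le_mul ha1 hkℓ' (by positivity) (by positivity)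
    rwa [one_div_mul_cancel h2ℓ.ne'] at h1
  have hn4 : (4 : ℝ) ≤ n := by exact_mod_cast hn
  have ha8 : a ≤ 1 / 8 := by
    have : (8 : ℝ) * a ≤ a * (2 * n) := by nlinarith
    linarith
  have hpow : ∀ m : ℕ, a ^ m * (2 * n : ℝ) ^ m ≤ 1 := by
    intro m
    rw [← mul_pow]
    exact pow_le_one₀ (by positivity) han
  refine ⟨z, hz, hz1, h16, ?_, ?_, ?_⟩
  · refine le_trans (mul_le_mul_of_nonneg_right ?_ (by positivity)) (hpow 4)
    rw [ha, ← pow_mul]
    refine pow_le_pow_of_le_one hz.le hz1 ?_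
    have h2 : 16 * (k * ℓ) * 4 = 64 * (k * ℓ) := by ring
    omega
  · have h1 : z ^ (4 * (24 * (k * ℓ))) = a ^ 6 := by
      rw [ha, ← pow_mul]
      congr 1
      ring
    rw [h1]
    exact hpow 6
  · intro τ
    have h1 : z ^ (4 * (4 * (k * ℓ) * (5 * τ + 2))) = a ^ (5 * τ + 2) := by
      rw [ha, ← pow_mul]
      congr 1
      ring
    rw [h1]
    have h3 : 5 * k * a ^ (5 * τ + 2) * (2 * n : ℝ) ^ (5 * τ) =
        5 * a * (a * k) * (a ^ (5 * τ) * (2 * n : ℝ) ^ (5 * τ)) := by ring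
    rw [h3]
    have h5 : 5 * a * (a * k) ≤ 5 * (1 / 8) * 1 :=
      mul_le_mul (by linarith) hak (by positivity) (by norm_num)
    have h6 : 5 * a * (a * k) * (a ^ (5 * τ) * (2 * n : ℝ) ^ (5 * τ)) ≤ 5 * (1 / 8) * 1 * 1 :=
      mul_le_mul h5 (hpow (5 * τ)) (by positivity) (by norm_num)
    linarith

variable {V E : Type} [Fintype V] [Fintype E]

omit [Fintype V] [Fintype E] in
/-- The edges `e i` are added. -/
theorem assemble (s t : E → V) {k : ℕ} (v : V) (w : Fin k → V) (e : Fin k → E)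
    (he : Function.Injective e) (hew : ∀ i, s(s (e i), t (e i)) = s(v, w i))
    (N : Fin k → Finset E) (hNd : ∀ i j, i ≠ j → Disjoint (N i) (N j))
    (hN1 : ∀ i, ∀ x ∈ N i, v ∉ s(s x, t x) ∧ w i ∉ s(s x, t x))
    (hN2 : ∀ i, ∀ x, x ≠ v → x ≠ w i → ∃! y, y ∈ N i ∧ x ∈ s(s y, t y)) :
    ∃ M : Fin k → Finset E, (∀ i, e i ∈ M i) ∧ (∀ i j, i ≠ j → Disjoint (M i) (M j)) ∧
      ∀ i, ∀ x : V, ∃! y : E, y ∈ M i ∧ x ∈ s(s y, t y) := by
  have hv : ∀ i, v ∈ s(s (e i), t (e i)) := by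
    intro i
    rw [hew i]
    exact Sym2.mem_mk_left _ _
  have hnot : ∀ i j, e i ∉ N j := fun i j h => (hN1 j _ h).1 (hv i)
  refine ⟨fun i => insert (e i) (N i), fun i => Finset.mem_insert_self _ _, ?_, ?_⟩
  · intro i j hij
    rw [Finset.disjoint_left]
    intro y hy hy'
    rw [Finset.mem_insert] at hy hy'
    rcases hy with rfl | hy
    · rcases hy' with h | h
      · exact hij (he h)
      · exact hnot i j h
    · rcases hy' with rfl | h
      · exact hnot j i hy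
      · exact Finset.disjoint_left.1 (hNd i j hij) hy h
  · intro i x
    by_cases hx : x = v ∨ x = w i
    · have hx2 : x ∈ s(s (e i), t (e i)) := by
        rw [hew i, Sym2.mem_iff]
        exact hx
      refine ⟨e i, ⟨Finset.mem_insert_self _ _, hx2⟩, ?_⟩
      rintro y ⟨hy, hxy⟩
      rw [Finset.mem_insert] at hy
      rcases hy with rfl | hy
      · rfl
      · rcases hx with rfl | rfl
        · exact absurd hxy (hN1 i y hy).1
        · exact absurd hxy (hN1 i y hy).2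
    · rw [not_or] at hx
      obtain ⟨y, ⟨hy, hxy⟩, hyu⟩ := hN2 i x hx.1 hx.2
      refine ⟨y, ⟨Finset.mem_insert_of_mem hy, hxy⟩, ?_⟩
      rintro y' ⟨hy', hxy'⟩
      rw [Finset.mem_insert] at hy'
      rcases hy' with rfl | hy'
      · rw [hew i, Sym2.mem_iff] at hxy'
        rcases hxy' with h | h
        · exact absurd h hx.1
        · exact absurd h hx.2
      · exact hyu y' ⟨hy', hxy'⟩

omit [Fintype V] [Fintype E] in
theorem other_end (s t : E → V) (hst : ∀ e, s e ≠ t e) (v : V) (e : E) (h : v ∈ s(s e, t e)) :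
    ∃ w, v ≠ w ∧ s(s e, t e) = s(v, w) := by
  rw [Sym2.mem_iff] at h
  rcases h with rfl | rfl
  · exact ⟨t e, hst e, rfl⟩
  · exact ⟨s e, (hst e).symm, Sym2.eq_swap⟩

/-- The robustly bicritical case. -/
theorem star_robust (s t : E → V) (hst : ∀ e, s e ≠ t e) {r k ℓ τ D : ℕ} (hk : 2 ≤ k)
    (hcut : ∀ X : Finset V, X.Nonempty → X ≠ univ → r ≤ dd s t X)
    (heven : Even (Fintype.card V)) (hV : 4 ≤ Fintype.card V)
    (hℓ : 2 * Fintype.card V ≤ 2 ^ ℓ) (hkℓ : k ≤ 2 ^ ℓ) (hr : 64 * (k * ℓ) ≤ r)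
    (hD : ∑ v, (dd s t {v} - r) ≤ D)
    (hτ : ∀ 𝒩 : Finset (Finset V), (∀ X ∈ 𝒩, Odd X.card ∧ 3 ≤ X.card ∧
        X.card + 3 ≤ Fintype.card V ∧ dd s t X < r + 24 * (k * ℓ)) →
      (∀ X ∈ 𝒩, ∀ Y ∈ 𝒩, X ≠ Y → Disjoint X Y) → 𝒩.card ≤ τ)
    (hrob : ∀ (S : Finset V) (𝒬 : Finset (Finset V)), 2 ≤ S.card → S.card ≤ 𝒬.card →
      (∀ X ∈ 𝒬, Odd X.card) → (∀ X ∈ 𝒬, Disjoint X S) →
      (∀ X ∈ 𝒬, ∀ Y ∈ 𝒬, X ≠ Y → Disjoint X Y) → (∀ x, x ∉ S → ∃ X ∈ 𝒬, x ∈ X) →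
      4 * (k * ℓ) * (5 * τ + 2) + D ≤ (FF s t S 𝒬).card)
    (v : V) (e : Fin k → E) (he : Function.Injective e) (hev : ∀ i, v ∈ s(s (e i), t (e i))) :
    ∃ M : Fin k → Finset E, (∀ i, e i ∈ M i) ∧ (∀ i j, i ≠ j → Disjoint (M i) (M j)) ∧
      ∀ i, ∀ x : V, ∃! y : E, y ∈ M i ∧ x ∈ s(s y, t y) := by
  have hℓ1 : 1 ≤ ℓ := by
    rcases Nat.eq_zero_or_pos ℓ with h0 | h0
    · rw [h0, pow_zero] at hℓ
      omega
    · exact h0
  have hkℓ0 : 1 ≤ k * ℓ := Nat.one_le_iff_ne_zero.2 (by positivity)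
  choose w hvw hew using fun i => other_end s t hst v (e i) (hev i)
  obtain ⟨z, hz, hz1, h16, hzr, hz0, hfin⟩ := numbers2 (n := Fintype.card V) hk hV hℓ hkℓ hr
  obtain ⟨c, hc⟩ := pick s t (r := r) (by omega) hcut heven (by omega) hz hz1 (by omega) h16 hzr
    (E₀ := 24 * (k * ℓ)) (by omega) hz0 τ hτ D (4 * (k * ℓ) * (5 * τ + 2)) 0 ∅ (by simp) (hfin τ)
  have hN : ∀ i, ∃ N : Finset E, N ⊆ (univ.filter fun x => c x = i) ∧
      (∀ x ∈ N, v ∉ s(s x, t x) ∧ w i ∉ s(s x, t x)) ∧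
      ∀ x, x ≠ v → x ≠ w i → ∃! y, y ∈ N ∧ x ∈ s(s y, t y) := by
    intro i
    by_contra hcon
    obtain ⟨S, 𝒬, h1, h2, h3, h4, h5, h6, h7, h8⟩ := barrier s t hst heven v (w i) (hvw i) _ hcon
    have h9 : 2 ≤ S.card := by
      rw [← Finset.card_pair (hvw i)]
      refine Finset.card_le_card ?_
      intro x hx
      rw [Finset.mem_insert, Finset.mem_singleton] at hx
      rcases hx with rfl | rfl
      · exact h1
      · exact h2
    have h10 := hrob S 𝒬 h9 h3 h4 h5 h6 h7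
    have h11 := barrier_ineq s t hst hD hcut S 𝒬 ⟨v, h1⟩ h3 h4 h5 h6
    rw [← FF_filter s t hst S 𝒬 h4] at h8 h10
    obtain ⟨x, hx, _, hxi⟩ := hc i S (𝒬.filter fun X => 3 ≤ X.card)
      (fun X hX => by
        rw [Finset.mem_filter] at hX
        exact ⟨h4 X hX.1, hX.2, part_size heven v (w i) (hvw i) S X h1 h2 (h5 X hX.1) (h4 X hX.1)⟩)
      (fun X hX Y hY => h6 X (Finset.mem_filter.1 hX).1 Y (Finset.mem_filter.1 hY).1)
      (fun X hX => h5 X (Finset.mem_filter.1 hX).1) h11 (by omega)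
    exact h8 x hx (Finset.mem_filter.2 ⟨Finset.mem_univ _, hxi⟩)
  choose N hN1 hN2 hN3 using hN
  refine assemble s t v w e he hew N (fun i j hij => ?_) hN2 hN3
  rw [Finset.disjoint_left]
  intro x hx hx'
  exact hij ((Finset.mem_filter.1 (hN1 i hx)).2.symm.trans (Finset.mem_filter.1 (hN1 j hx')).2)

/-- The regular case with a gap for the odd cuts. -/
theorem star_gap (s t : E → V) (hst : ∀ e, s e ≠ t e) {r k ℓ : ℕ} (hk : 2 ≤ k)
    (hcut : ∀ X : Finset V, X.Nonempty → X ≠ univ → r ≤ dd s t X)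
    (heven : Even (Fintype.card V)) (hV : 4 ≤ Fintype.card V)
    (hℓ : 2 * Fintype.card V ≤ 2 ^ ℓ) (hkℓ : k ≤ 2 ^ ℓ) (hr : 64 * (k * ℓ) ≤ r)
    (hreg : ∀ v, dd s t {v} = r)
    (hgap : ∀ X : Finset V, Odd X.card → 3 ≤ X.card → X.card + 3 ≤ Fintype.card V →
      r + 24 * (k * ℓ) ≤ dd s t X)
    (v : V) (e : Fin k → E) (he : Function.Injective e) (hev : ∀ i, v ∈ s(s (e i), t (e i))) :
    ∃ M : Fin k → Finset E, (∀ i, e i ∈ M i) ∧ (∀ i j, i ≠ j → Disjoint (M i) (M j)) ∧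
      ∀ i, ∀ x : V, ∃! y : E, y ∈ M i ∧ x ∈ s(s y, t y) := by
  have hℓ1 : 1 ≤ ℓ := by
    rcases Nat.eq_zero_or_pos ℓ with h0 | h0
    · rw [h0, pow_zero] at hℓ
      omega
    · exact h0
  have hkℓ1 : k ≤ k * ℓ := Nat.le_mul_of_pos_right k hℓ1
  choose w hvw hew using fun i => other_end s t hst v (e i) (hev i)
  obtain ⟨z, hz, hz1, h16, hzr, hz0, hfin⟩ := numbers2 (n := Fintype.card V) hk hV hℓ hkℓ hr
  -- the sets which are one side of a nearly bipartite structure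
  set J : ℕ := 8 * (k * ℓ) + 4 * k with hJ
  have hsmall : ∀ S S' : Finset V, v ∈ S → v ∈ S' → inn s t S ≤ (FF s t S ∅).card →
      (FF s t S ∅).card < J → inn s t S' ≤ (FF s t S' ∅).card → (FF s t S' ∅).card < J →
      S = S' := by
    intro S S' h1 h2 h3 h4 h5 h6
    have h7 := dd_symmDiff s t ∅ S S' (by simp) (by simp)
    by_contra hne
    have h8 : (symmDiff S S').Nonempty := by
      rw [Finset.nonempty_iff_ne_empty]
      intro h
      exact hne (symmDiff_eq_bot.1 h)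
    have h9 : symmDiff S S' ≠ univ := by
      intro h
      have h10 : v ∈ symmDiff S S' := by
        rw [h]
        exact Finset.mem_univ _
      rw [Finset.mem_symmDiff] at h10
      tauto
    have h10 := hcut _ h8 h9
    omega
  -- the forced edges
  have hforce : ∃ (A : Finset (Fin k)) (a : {i : Fin k // i ∈ A} → E), Function.Injective a ∧
      ∀ S : Finset V, v ∈ S → inn s t S ≤ (FF s t S ∅).card → (FF s t S ∅).card < J →
        ∀ i, w i ∈ S → ∃ h : i ∈ A, a ⟨i, h⟩ ∈ FF s t S ∅ := by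
    by_cases hex : ∃ S : Finset V, v ∈ S ∧ inn s t S ≤ (FF s t S ∅).card ∧ (FF s t S ∅).card < J
    · obtain ⟨S₀, h1, h2, h3⟩ := hex
      set A : Finset (Fin k) := univ.filter fun i => w i ∈ S₀ with hA
      have h4 : A.card ≤ inn s t S₀ := by
        have h5 : A.image e ⊆ univ.filter fun x => s x ∈ S₀ ∧ t x ∈ S₀ := by
          intro x hx
          obtain ⟨i, hi, rfl⟩ := Finset.mem_image.1 hx
          have hwi : w i ∈ S₀ := (Finset.mem_filter.1 hi).2
          have hs : s (e i) ∈ s(v, w i) := by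
            rw [← hew i]
            exact Sym2.mem_mk_left _ _
          have ht : t (e i) ∈ s(v, w i) := by
            rw [← hew i]
            exact Sym2.mem_mk_right _ _
          rw [Sym2.mem_iff] at hs ht
          refine Finset.mem_filter.2 ⟨Finset.mem_univ _, ?_, ?_⟩
          · rcases hs with h | h
            · rw [h]; exact h1
            · rw [h]; exact hwi
          · rcases ht with h | h
            · rw [h]; exact h1
            · rw [h]; exact hwi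
        have h6 := Finset.card_le_card h5
        rw [Finset.card_image_of_injective _ he] at h6
        exact h6
      have h5 : Fintype.card {i : Fin k // i ∈ A} ≤
          Fintype.card {x : E // x ∈ FF s t S₀ ∅} := by
        rw [Fintype.card_coe, Fintype.card_coe]
        exact h4.trans h2
      obtain ⟨g⟩ := Function.Embedding.nonempty_of_card_le h5
      refine ⟨A, fun i => (g i).1, fun i j hij => g.injective (Subtype.ext hij), ?_⟩
      intro S h6 h7 h8 i hi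
      have h9 : S = S₀ := hsmall S S₀ h6 h1 h7 h8 h2 h3
      rw [h9] at hi ⊢
      have h10 : i ∈ A := Finset.mem_filter.2 ⟨Finset.mem_univ _, hi⟩
      exact ⟨h10, (g ⟨i, h10⟩).2⟩
    · refine ⟨∅, fun i => absurd i.2 (Finset.notMem_empty _), fun i => absurd i.2
        (Finset.notMem_empty _), ?_⟩
      intro S h6 h7 h8
      exact absurd ⟨S, h6, h7, h8⟩ hex
  obtain ⟨A, a, hainj, hA⟩ := hforce
  have hD : ∑ v, (dd s t {v} - r) ≤ 0 := by
    refine le_of_eq (Finset.sum_eq_zero fun v _ => ?_)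
    rw [hreg v]
    omega
  obtain ⟨c, hc⟩ := pick s t (r := r) (by omega) hcut heven (by omega) hz hz1 (by omega) h16 hzr
    (E₀ := 24 * (k * ℓ)) (by omega) hz0 0 (by
      intro 𝒩 h1 _
      rw [Nat.le_zero, Finset.card_eq_zero, Finset.eq_empty_iff_forall_notMem]
      intro X hX
      obtain ⟨h2, h3, h4, h5⟩ := h1 X hX
      have := hgap X h2 h3 h4
      omega) 0 (4 * (k * ℓ) * (5 * 0 + 2)) k (univ.image a) (by
        refine Finset.card_image_le.trans ?_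
        rw [Finset.card_univ, Fintype.card_coe]
        exact (Finset.card_le_univ A).trans (le_of_eq (Fintype.card_fin k))) (hfin 0)
  let c' : E → Fin k := fun x => if h : ∃ i, a i = x then h.choose.1 else c x
  have hc'a : ∀ i, c' (a i) = i.1 := by
    intro i
    have h : ∃ j, a j = a i := ⟨i, rfl⟩
    have h1 : c' (a i) = h.choose.1 := dif_pos h
    rw [h1, hainj h.choose_spec]
  have hc'c : ∀ x, x ∉ univ.image a → c' x = c x := by
    intro x hx
    refine dif_neg ?_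
    rintro ⟨i, hi⟩
    exact hx (Finset.mem_image.2 ⟨i, Finset.mem_univ _, hi⟩)
  have hN : ∀ i, ∃ N : Finset E, N ⊆ (univ.filter fun x => c' x = i) ∧
      (∀ x ∈ N, v ∉ s(s x, t x) ∧ w i ∉ s(s x, t x)) ∧
      ∀ x, x ≠ v → x ≠ w i → ∃! y, y ∈ N ∧ x ∈ s(s y, t y) := by
    intro i
    by_contra hcon
    obtain ⟨S, 𝒬, h1, h2, h3, h4, h5, h6, h7, h8⟩ := barrier s t hst heven v (w i) (hvw i) _ hcon
    have h11 := barrier_ineq s t hst hD hcut S 𝒬 ⟨v, h1⟩ h3 h4 h5 h6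
    rw [← FF_filter s t hst S 𝒬 h4] at h8
    set 𝒩 := 𝒬.filter fun X => 3 ≤ X.card with h𝒩
    have h12 : ∀ X ∈ 𝒩, Odd X.card ∧ 3 ≤ X.card ∧ X.card + 3 ≤ Fintype.card V := by
      intro X hX
      rw [h𝒩, Finset.mem_filter] at hX
      exact ⟨h4 X hX.1, hX.2, part_size heven v (w i) (hvw i) S X h1 h2 (h5 X hX.1) (h4 X hX.1)⟩
    by_cases hbig : J ≤ (FF s t S 𝒩).card
    · obtain ⟨x, hx, hxim, hxi⟩ := hc i S 𝒩 h12
        (fun X hX Y hY => h6 X (Finset.mem_filter.1 hX).1 Y (Finset.mem_filter.1 hY).1)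
        (fun X hX => h5 X (Finset.mem_filter.1 hX).1) h11 (by omega)
      exact h8 x hx (Finset.mem_filter.2 ⟨Finset.mem_univ _, by rw [hc'c x hxim, hxi]⟩)
    · rw [not_le] at hbig
      have h13 : 𝒩 = ∅ := by
        rw [Finset.eq_empty_iff_forall_notMem]
        intro X hX
        obtain ⟨h14, h15, h16⟩ := h12 X hX
        have h17 := hgap X h14 h15 h16
        have h18 : dd s t X - r ≤ ∑ X ∈ 𝒩, (dd s t X - r) :=
          Finset.single_le_sum (f := fun X => dd s t X - r) (fun _ _ => Nat.zero_le _) hX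
        omega
      rw [h13] at h8 hbig h11
      rw [Finset.sum_empty] at h11
      obtain ⟨h14, h15⟩ := hA S h1 (by omega) hbig i h2
      exact h8 _ h15 (Finset.mem_filter.2 ⟨Finset.mem_univ _, hc'a ⟨i, h14⟩⟩)
  choose N hN1 hN2 hN3 using hN
  refine assemble s t v w e he hew N (fun i j hij => ?_) hN2 hN3
  rw [Finset.disjoint_left]
  intro x hx hx'
  exact hij ((Finset.mem_filter.1 (hN1 i hx)).2.symm.trans (Finset.mem_filter.1 (hN1 j hx')).2)

end Pool.Agent.Lib.MP_6b611a_co
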