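import Pool.Agent.Lib.MP_6b611a_co.SP.Finish

/-! Contractions of connected multigraphs, and the tight odd cuts. -/

set_option autoImplicit false

open Finset
open scoped Classical

namespace Pool.Agent.Lib.MP_6b611a_co

/-- The number of the leaving edges. -/
noncomputable def lv {V E : Type} (ends : E → Sym2 V) (X : Set V) : ℕ :=
  Nat.card {e : E // ∃ a b : V, a ∈ X ∧ b ∉ X ∧ a ∈ ends e ∧ b ∈ ends e}

/-- A finite loopless multigraph of positive even order such that at least `r` edges leave every
nonempty proper vertex set. -/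
structure RConn (r : ℕ) {V E : Type} (ends : E → Sym2 V) : Prop where
  finite_vertices : Finite V
  finite_edges : Finite E
  nonempty : Nonempty V
  even : Even (Nat.card V)
  loopless : ∀ e : E, ¬ (ends e).IsDiag
  cuts : ∀ X : Set V, X.Nonempty → X ≠ Set.univ → r ≤ lv ends X

variable {V E : Type}

theorem lv_compl (ends : E → Sym2 V) (X : Set V) : lv ends Xᶜ = lv ends X := by
  unfold lv
  refine Nat.card_congr (Equiv.subtypeEquivRight fun e => ?_)
  constructor
  · rintro ⟨a, b, h1, h2, h3, h4⟩
    rw [Set.mem_compl_iff] at h1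
    rw [Set.mem_compl_iff, not_not] at h2
    exact ⟨b, a, h2, h1, h4, h3⟩
  · rintro ⟨a, b, h1, h2, h3, h4⟩
    refine ⟨b, a, ?_, ?_, h4, h3⟩
    · rw [Set.mem_compl_iff]
      exact h2
    · rw [Set.mem_compl_iff, not_not]
      exact h1

/-- The cuts of the contracted multigraph. -/
theorem lv_cends (ends : E → Sym2 V) (X : Set V) (Y : Set (CVert X)) :
    lv (cends ends X) Y = lv ends (cmap X ⁻¹' Y) := by
  unfold lv
  refine Nat.card_congr ⟨fun e => ⟨e.1.1, ?_⟩, fun e => ⟨⟨e.1, ?_⟩, ?_⟩, ?_, ?_⟩
  · obtain ⟨a, b, h1, h2, h3, h4⟩ := e.2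
    unfold cends at h3 h4
    rw [Sym2.mem_map] at h3 h4
    obtain ⟨a', h5, rfl⟩ := h3
    obtain ⟨b', h6, rfl⟩ := h4
    exact ⟨a', b', h1, h2, h5, h6⟩
  · obtain ⟨a, b, h1, h2, h3, h4⟩ := e.2
    intro h
    have h5 : cmap X a = cmap X b := by
      unfold cmap
      rw [dif_pos (h a h3), dif_pos (h b h4)]
    rw [Set.mem_preimage] at h1 h2
    rw [h5] at h1
    exact h2 h1
  · obtain ⟨a, b, h1, h2, h3, h4⟩ := e.2
    refine ⟨cmap X a, cmap X b, h1, h2, ?_, ?_⟩
    · unfold cends
      exact Sym2.mem_map.2 ⟨a, h3, rfl⟩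
    · unfold cends
      exact Sym2.mem_map.2 ⟨b, h4, rfl⟩
  · intro e
    rfl
  · intro e
    rfl

/-- The size of the preimage of a set without the new vertex. -/
theorem ncard_pre_notMem [Finite V] (X : Set V) (Y : Set (CVert X)) (h : none ∉ Y) :
    (cmap X ⁻¹' Y).ncard = Y.ncard := by
  refine Set.ncard_congr (fun v _ => cmap X v) (fun v hv => hv) ?_ ?_
  · intro a b ha hb hab
    have ha' : a ∉ X := by
      intro h1
      apply h
      have : cmap X a = none := by
        unfold cmap
        rw [dif_pos h1]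
      rw [← this]
      exact ha
    have hb' : b ∉ X := by
      intro h1
      apply h
      have : cmap X b = none := by
        unfold cmap
        rw [dif_pos h1]
      rw [← this]
      exact hb
    unfold cmap at hab
    rw [dif_neg ha', dif_neg hb'] at hab
    simpa using hab
  · intro y hy
    rcases y with _ | ⟨v, hv⟩
    · exact absurd hy h
    · have h1 : cmap X v = some ⟨v, hv⟩ := by
        unfold cmap
        rw [dif_neg hv]
      exact ⟨v, by rw [Set.mem_preimage, h1]; exact hy, h1⟩

theorem card_cvert [Finite V] (X : Set V) : Nat.card (CVert X) + X.ncard = Nat.card V + 1 := by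
  have h1 : Nat.card (CVert X) = Nat.card {v : V // v ∉ X} + 1 := Finite.card_option
  have h2 : Nat.card {v : V // v ∉ X} = (Xᶜ : Set V).ncard := rfl
  have h3 := Set.ncard_add_ncard_compl X
  omega

/-- The size of the preimage of a set with the new vertex. -/
theorem ncard_pre_mem [Finite V] (X : Set V) (Y : Set (CVert X)) (h : none ∈ Y) :
    (cmap X ⁻¹' Y).ncard + 1 = Y.ncard + X.ncard := by
  have h1 := ncard_pre_notMem X Yᶜ (fun h1 => h1 h)
  have h2 : cmap X ⁻¹' Yᶜ = (cmap X ⁻¹' Y)ᶜ := rfl
  rw [h2] at h1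
  have h3 := Set.ncard_add_ncard_compl (cmap X ⁻¹' Y)
  have h4 := Set.ncard_add_ncard_compl Y
  have h5 := card_cvert X
  omega

/-- The contraction of an odd set. -/
theorem rconn_cends (ends : E → Sym2 V) {r : ℕ} (h : RConn r ends) (X : Set V)
    (hX : Odd X.ncard) : RConn r (cends ends X) := by
  have := h.finite_vertices
  have := h.finite_edges
  have hXne : X.Nonempty := by
    rw [← Set.ncard_pos]
    exact hX.pos
  refine ⟨inferInstance, inferInstance, ⟨none⟩, ?_, ?_, ?_⟩
  · have h1 := card_cvert X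
    obtain ⟨a, ha⟩ := h.even
    obtain ⟨b, hb⟩ := hX
    exact ⟨a - b, by omega⟩
  · rintro ⟨e, he⟩ hd
    unfold cends at hd
    have h1 := h.loopless e
    simp only at hd
    revert he hd h1
    induction ends e using Sym2.ind with
    | _ a b =>
      intro he hd h1
      rw [Sym2.map_mk, Sym2.mk_isDiag_iff] at hd
      rw [Sym2.mk_isDiag_iff] at h1
      unfold cmap at hd
      by_cases ha : a ∈ X
      · by_cases hb : b ∈ X
        · apply he
          intro v hv
          rw [Sym2.mem_iff] at hv
          rcases hv with rfl | rfl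
          · exact ha
          · exact hb
        · rw [dif_pos ha, dif_neg hb] at hd
          exact absurd hd (by simp)
      · by_cases hb : b ∈ X
        · rw [dif_neg ha, dif_pos hb] at hd
          exact absurd hd (by simp)
        · rw [dif_neg ha, dif_neg hb] at hd
          exact h1 (by simpa using hd)
  · intro Y hY1 hY2
    rw [lv_cends]
    refine h.cuts _ ?_ ?_
    · obtain ⟨y, hy⟩ := hY1
      rcases y with _ | ⟨v, hv⟩
      · obtain ⟨x, hx⟩ := hXne
        refine ⟨x, ?_⟩
        rw [Set.mem_preimage]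
        unfold cmap
        rw [dif_pos hx]
        exact hy
      · refine ⟨v, ?_⟩
        rw [Set.mem_preimage]
        unfold cmap
        rw [dif_neg hv]
        exact hy
    · intro h1
      apply hY2
      rw [Set.eq_univ_iff_forall] at h1 ⊢
      intro y
      rcases y with _ | ⟨v, hv⟩
      · obtain ⟨x, hx⟩ := hXne
        have h2 := h1 x
        rw [Set.mem_preimage] at h2
        unfold cmap at h2
        rw [dif_pos hx] at h2
        exact h2
      · have h2 := h1 v
        rw [Set.mem_preimage] at h2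
        unfold cmap at h2
        rw [dif_neg hv] at h2
        exact h2

/-- The degrees after the contraction of a set with `r` leaving edges. -/
theorem reg_cends (ends : E → Sym2 V) {r : ℕ} (X : Set V) (hXr : lv ends X = r)
    (hreg : ∀ v : V, lv ends {v} = r) (y : CVert X) : lv (cends ends X) {y} = r := by
  rw [lv_cends]
  rcases y with _ | ⟨v, hv⟩
  · rw [← hXr]
    congr 1
    ext x
    rw [Set.mem_preimage, Set.mem_singleton_iff]
    unfold cmap
    by_cases hx : x ∈ X
    · simp [hx]
    · simp [hx]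
  · rw [← hreg v]
    congr 1
    ext x
    rw [Set.mem_preimage, Set.mem_singleton_iff, Set.mem_singleton_iff]
    unfold cmap
    by_cases hx : x ∈ X
    · rw [dif_pos hx]
      constructor
      · intro h
        exact absurd h (by simp)
      · rintro rfl
        exact absurd hx hv
    · rw [dif_neg hx]
      simp

theorem deg_lv [Finite V] [Finite E] (ends : E → Sym2 V) (hloop : ∀ e : E, ¬ (ends e).IsDiag)
    (v : V) : Nat.card {e : E // v ∈ ends e} = lv ends {v} := by
  have := Fintype.ofFinite V
  have := Fintype.ofFinite E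
  obtain ⟨s, t, hf, hst⟩ := two_ends ends hloop
  rw [card_deg ends s t hf hst v, ← card_cut ends s t hf {v}]
  unfold lv
  simp

/-- A property which passes to the contractions along tight odd sets. -/
theorem star_tight (r k : ℕ)
    (Φ : ∀ {V E : Type}, (E → Sym2 V) → Prop)
    (hΦ : ∀ {V E : Type} (ends : E → Sym2 V), RConn r ends → Φ ends →
      ∀ X : Set V, Odd X.ncard → 3 ≤ X.ncard → X.ncard + 3 ≤ Nat.card V → lv ends X = r →
        Φ (cends ends X))
    (hstar : ∀ {V E : Type} (ends : E → Sym2 V), RConn r ends → Φ ends →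
      (∀ v : V, lv ends {v} = r) →
      (∀ X : Set V, Odd X.ncard → 3 ≤ X.ncard → X.ncard + 3 ≤ Nat.card V → lv ends X ≠ r) →
      Star k ends) :
    ∀ (N : ℕ) {V E : Type} (ends : E → Sym2 V), Nat.card V ≤ N → RConn r ends → Φ ends →
      (∀ v : V, lv ends {v} = r) → Star k ends := by
  intro N
  induction N with
  | zero =>
    intro V E ends hN hG _ _
    have := hG.finite_vertices
    have := hG.nonempty
    have h1 : 0 < Nat.card V := Nat.card_pos
    omega
  | succ N ih =>
    intro V E ends hN hG hP hreg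
    have := hG.finite_vertices
    by_cases hex : ∃ X : Set V, Odd X.ncard ∧ 3 ≤ X.ncard ∧ X.ncard + 3 ≤ Nat.card V ∧
        lv ends X = r
    · obtain ⟨X, h1, h2, h3, h4⟩ := hex
      have h5 := Set.ncard_add_ncard_compl X
      have h6 : Odd (Xᶜ).ncard := by
        obtain ⟨a, ha⟩ := hG.even
        obtain ⟨b, hb⟩ := h1
        exact ⟨a - b - 1, by omega⟩
      have h7 := lv_compl ends X
      have h8 := card_cvert X
      have h9 := card_cvert Xᶜ
      refine splice k ends X ?_ ?_
      · exact ih (cends ends X) (by omega) (rconn_cends ends hG X h1)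
          (hΦ ends hG hP X h1 h2 h3 h4) (reg_cends ends X h4 hreg)
      · exact ih (cends ends Xᶜ) (by omega) (rconn_cends ends hG Xᶜ h6)
          (hΦ ends hG hP Xᶜ h6 (by omega) (by omega) (by omega))
          (reg_cends ends Xᶜ (by omega) hreg)
    · push Not at hex
      exact hstar ends hG hP hreg hex

/-- Expanding regular multigraphs with tight odd sets. -/
theorem tight_expand {r k : ℕ} (hk : 2 ≤ k) (ends : E → Sym2 V) (hG : RConn r ends)
    (hreg : ∀ v : V, lv ends {v} = r)
    (hexp : ∀ X : Set V, Odd X.ncard → 3 ≤ X.ncard → 2 * X.ncard ≤ Nat.card V →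
      lv ends X = r ∨ r + (k - 1) * (X.ncard - 1) ≤ lv ends X) : Star k ends := by
  refine star_tight r k (fun {V _} ends => ∀ X : Set V, Odd X.ncard → 3 ≤ X.ncard →
      2 * X.ncard ≤ Nat.card V → lv ends X = r ∨ r + (k - 1) * (X.ncard - 1) ≤ lv ends X)
    ?_ ?_ (Nat.card V) ends le_rfl hG hexp hreg
  · intro V E ends hG h X hX1 hX2 hX3 hX4 Y hY1 hY2 hY3
    have := hG.finite_vertices
    rw [lv_cends]
    have h1 := card_cvert X
    have h2 := Set.ncard_add_ncard_compl (cmap X ⁻¹' Y)
    have h3 := lv_compl ends (cmap X ⁻¹' Y)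
    have hmono : ∀ m : ℕ, Y.ncard ≤ m → (k - 1) * (Y.ncard - 1) ≤ (k - 1) * (m - 1) :=
      fun m hm => Nat.mul_le_mul_left _ (by omega)
    by_cases hn : none ∈ Y
    · have h4 := ncard_pre_mem X Y hn
      have hodd : Odd (cmap X ⁻¹' Y).ncard := by
        obtain ⟨a, ha⟩ := hX1
        obtain ⟨b, hb⟩ := hY1
        exact ⟨a + b, by omega⟩
      by_cases h5 : 2 * (cmap X ⁻¹' Y).ncard ≤ Nat.card V
      · rcases h _ hodd (by omega) h5 with h6 | h6
        · exact Or.inl h6
        · have := hmono (cmap X ⁻¹' Y).ncard (by omega)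
          exact Or.inr (by omega)
      · have hodd' : Odd ((cmap X ⁻¹' Y)ᶜ).ncard := by
          obtain ⟨a, ha⟩ := hG.even
          obtain ⟨b, hb⟩ := hodd
          exact ⟨a - b - 1, by omega⟩
        rcases h _ hodd' (by omega) (by omega) with h6 | h6
        · exact Or.inl (by omega)
        · have := hmono ((cmap X ⁻¹' Y)ᶜ).ncard (by omega)
          exact Or.inr (by omega)
    · have h4 := ncard_pre_notMem X Y hn
      rcases h (cmap X ⁻¹' Y) (by rw [h4]; exact hY1) (by omega) (by omega) with h6 | h6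
      · exact Or.inl h6
      · rw [h4] at h6
        exact Or.inr h6
  · intro V E ends hG h hreg hno
    have := hG.finite_vertices
    have := hG.finite_edges
    refine piece_expand ends (r := r) hk hG.loopless hG.even (fun v => ?_)
      (fun X h1 h2 h3 => ?_)
    · rw [deg_lv ends hG.loopless v]
      exact hreg v
    · have h4 : X.ncard + 3 ≤ Nat.card V := by omega
      exact (h X h1 h2 h3).resolve_left (hno X h1 h2 h4)

/-- Regular multigraphs with a gap for the odd sets which are not tight. -/
theorem tight_gap {r k ℓ : ℕ} (hk : 2 ≤ k) (ends : E → Sym2 V) (hG : RConn r ends)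
    (hreg : ∀ v : V, lv ends {v} = r)
    (hℓ : 2 * Nat.card V ≤ 2 ^ ℓ) (hkℓ : k ≤ 2 ^ ℓ) (hr : 64 * k * ℓ ≤ r)
    (hgap : ∀ X : Set V, Odd X.ncard → 3 ≤ X.ncard → X.ncard + 3 ≤ Nat.card V →
      lv ends X = r ∨ r + 24 * k * ℓ ≤ lv ends X) : Star k ends := by
  refine star_tight r k (fun {V _} ends => 2 * Nat.card V ≤ 2 ^ ℓ ∧ ∀ X : Set V, Odd X.ncard →
      3 ≤ X.ncard → X.ncard + 3 ≤ Nat.card V → lv ends X = r ∨ r + 24 * k * ℓ ≤ lv ends X)
    ?_ ?_ (Nat.card V) ends le_rfl hG ⟨hℓ, hgap⟩ hreg
  · intro V E ends hG h X hX1 hX2 hX3 hX4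
    have := hG.finite_vertices
    have h1 := card_cvert X
    refine ⟨by omega, ?_⟩
    intro Y hY1 hY2 hY3
    rw [lv_cends]
    by_cases hn : none ∈ Y
    · have h4 := ncard_pre_mem X Y hn
      have hodd : Odd (cmap X ⁻¹' Y).ncard := by
        obtain ⟨a, ha⟩ := hX1
        obtain ⟨b, hb⟩ := hY1
        exact ⟨a + b, by omega⟩
      exact h.2 _ hodd (by omega) (by omega)
    · have h4 := ncard_pre_notMem X Y hn
      exact h.2 (cmap X ⁻¹' Y) (by rw [h4]; exact hY1) (by omega) (by omega)
  · intro V E ends hG h hreg hno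
    have := hG.finite_vertices
    have := hG.finite_edges
    have hsum : 2 * Nat.card E ≤ r * Nat.card V + 0 := by
      have := Fintype.ofFinite V
      have := Fintype.ofFinite E
      obtain ⟨s, t, hf, hst⟩ := two_ends ends hG.loopless
      have h1 := sum_deg s t
      rw [Finset.filter_true_of_mem (fun e _ => hst e), Finset.card_univ] at h1
      have h2 : ∑ v, dd s t {v} = Fintype.card V * r := by
        rw [← smul_eq_mul, ← Finset.card_univ, ← Finset.sum_const]
        refine Finset.sum_congr rfl fun x _ => ?_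
        rw [← card_deg ends s t hf hst x, deg_lv ends hG.loopless x]
        exact hreg x
      rw [Nat.card_eq_fintype_card, Nat.card_eq_fintype_card, mul_comm r]
      omega
    refine piece_gap ends (D := 0) hk hG.loopless hG.nonempty hG.even hG.cuts h.1 hkℓ (by omega)
      hsum (fun X h1 h2 h3 => ?_) (fun h0 => absurd h0 (lt_irrefl 0))
    exact (h.2 X h1 h2 h3).resolve_left (hno X h1 h2 h3)

/-- If there are at most `r n / 2` edges, then the multigraph is `r`-regular. -/
theorem reg_of_sum {r : ℕ} (ends : E → Sym2 V) (hG : RConn r ends)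
    (h : 2 * Nat.card E ≤ r * Nat.card V) (v : V) : lv ends {v} = r := by
  have := hG.finite_vertices
  have := hG.finite_edges
  have := hG.nonempty
  have := Fintype.ofFinite V
  have := Fintype.ofFinite E
  obtain ⟨s, t, hf, hst⟩ := two_ends ends hG.loopless
  have h1 := sum_deg s t
  rw [Finset.filter_true_of_mem (fun e _ => hst e), Finset.card_univ] at h1
  have h2 : ∀ x, dd s t {x} = lv ends {x} := by
    intro x
    rw [← card_deg ends s t hf hst x, deg_lv ends hG.loopless x]
  have h3 : ∀ x, r ≤ lv ends {x} := by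
    intro x
    refine hG.cuts {x} (Set.singleton_nonempty x) ?_
    intro h4
    have h5 : ({x} : Set V).ncard = Nat.card V := by rw [h4, Set.ncard_univ]
    rw [Set.ncard_singleton] at h5
    have h6 := hG.even
    rw [← h5] at h6
    exact absurd h6 (by decide)
  rw [Nat.card_eq_fintype_card, Nat.card_eq_fintype_card] at h
  by_contra hne
  have h4 : r < lv ends {v} := lt_of_le_of_ne (h3 v) (Ne.symm hne)
  have h5 : ∑ _x : V, r < ∑ x, dd s t {x} := by
    refine Finset.sum_lt_sum (fun x _ => ?_) ⟨v, Finset.mem_univ _, ?_⟩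
    · rw [h2 x]
      exact h3 x
    · rw [h2 v]
      exact h4
  rw [Finset.sum_const, Finset.card_univ, smul_eq_mul, mul_comm] at h5
  omega

/-- The case with a gap for the odd sets which are not tight. -/
theorem gap_all {r k ℓ D : ℕ} (hk : 2 ≤ k) (ends : E → Sym2 V) (hG : RConn r ends)
    (hℓ : 2 * Nat.card V ≤ 2 ^ ℓ) (hkℓ : k ≤ 2 ^ ℓ) (hr : 64 * k * ℓ + 5 * D ≤ r)
    (hD : 2 * Nat.card E ≤ r * Nat.card V + D)
    (hgap : ∀ X : Set V, Odd X.ncard → 3 ≤ X.ncard → X.ncard + 3 ≤ Nat.card V →
      (D = 0 ∧ lv ends X = r) ∨ r + 24 * k * ℓ + 3 * D ≤ lv ends X)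
    (hloc : 0 < D → ∀ S : Set V, 2 * S.ncard = Nat.card V → ∀ v ∈ S,
      min k (Nat.card {e : E // v ∈ ends e ∧ ∀ x ∈ ends e, x ∈ S}) ≤
        Nat.card {e : E // ∀ x ∈ ends e, x ∉ S}) : Star k ends := by
  have := hG.finite_vertices
  have := hG.finite_edges
  rcases Nat.eq_zero_or_pos D with h0 | h0
  · subst h0
    refine tight_gap hk ends hG (reg_of_sum ends hG (by omega)) hℓ hkℓ (by omega)
      (fun X h1 h2 h3 => ?_)
    rcases hgap X h1 h2 h3 with h4 | h4
    · exact Or.inl h4.2
    · exact Or.inr (by omega)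
  · refine piece_gap ends (D := D) hk hG.loopless hG.nonempty hG.even hG.cuts hℓ hkℓ hr hD
      (fun X h1 h2 h3 => ?_) hloc
    rcases hgap X h1 h2 h3 with h4 | h4
    · exact absurd h4.1 (by omega)
    · exact h4

end Pool.Agent.Lib.MP_6b611a_co
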