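import Pool.Agent.Lib.MP_6b611a_co.SP.Base

/-! Expanding regular multigraphs. -/

set_option autoImplicit false

open Finset
open scoped Classical

namespace Pool.Agent.Lib.MP_6b611a_co

/-- Every edge of an `r`-graph is in a perfect matching. -/
theorem one_edge {V E : Type} [Fintype V] [Fintype E] (s t : E → V) (hst : ∀ e, s e ≠ t e)
    (heven : Even (Fintype.card V)) {r : ℕ} (hreg : ∀ v, dd s t {v} = r)
    (hodd : ∀ X : Finset V, Odd X.card → r ≤ dd s t X) (e₀ : E) :
    ∃ M : Finset E, e₀ ∈ M ∧ ∀ x, ∃! y, y ∈ M ∧ x ∈ s(s y, t y) := by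
  have hN : ∃ N : Finset E, N ⊆ univ ∧ (∀ x ∈ N, s e₀ ∉ s(s x, t x) ∧ t e₀ ∉ s(s x, t x)) ∧
      ∀ x, x ≠ s e₀ → x ≠ t e₀ → ∃! y, y ∈ N ∧ x ∈ s(s y, t y) := by
    by_contra hcon
    obtain ⟨S, 𝒬, h1, h2, h3, h4, h5, h6, h7, h8⟩ :=
      barrier s t hst heven (s e₀) (t e₀) (hst e₀) univ hcon
    have h9 : (FF s t S 𝒬).card = 0 := by
      rw [Finset.card_eq_zero, Finset.eq_empty_iff_forall_notMem]
      exact fun x hx => h8 x hx (Finset.mem_univ _)
    have h10 := deg_count s t hst S 𝒬 h5 h6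
    have h11 : ∑ v ∈ S, dd s t {v} = S.card * r := by
      rw [Finset.sum_congr rfl fun v _ => hreg v, Finset.sum_const, smul_eq_mul]
    have h12 : 𝒬.card * r ≤ ∑ X ∈ 𝒬, dd s t X := by
      rw [← smul_eq_mul, ← Finset.sum_const]
      exact Finset.sum_le_sum fun X hX => hodd X (h4 X hX)
    have h13 : 1 ≤ inn s t S := by
      unfold inn
      exact Finset.card_pos.2 ⟨e₀, Finset.mem_filter.2 ⟨Finset.mem_univ _, h1, h2⟩⟩
    have h14 : S.card * r ≤ 𝒬.card * r := Nat.mul_le_mul_right _ h3
    omega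
  obtain ⟨N, _, hN2, hN3⟩ := hN
  obtain ⟨M, h1, _, h3⟩ := assemble s t (k := 1) (s e₀) (fun _ => t e₀) (fun _ => e₀)
    (fun i j _ => Subsingleton.elim i j) (fun _ => rfl) (fun _ => N)
    (fun i j hij => absurd (Subsingleton.elim i j) hij) (fun _ => hN2) (fun _ => hN3)
  exact ⟨M 0, h1 0, h3 0⟩

theorem cross_le {V E : Type} (s t : E → V) (M : Finset E)
    (hM : ∀ x, ∃! y, y ∈ M ∧ x ∈ s(s y, t y)) (X : Finset V) :
    (M.filter fun e => ¬ (s e ∈ X ↔ t e ∈ X)).card ≤ X.card := by
  refine Finset.card_le_card_of_injOn (fun e => if s e ∈ X then s e else t e) ?_ ?_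
  · intro e he
    rw [Finset.mem_coe, Finset.mem_filter] at he
    simp only
    by_cases h : s e ∈ X
    · rw [if_pos h]
      exact h
    · rw [if_neg h]
      by_contra h2
      exact he.2 ⟨fun h3 => absurd h3 h, fun h3 => absurd h3 h2⟩
  · intro e he e' he' hee
    rw [Finset.mem_coe, Finset.mem_filter] at he he'
    simp only at hee
    have h1 : (if s e ∈ X then s e else t e) ∈ s(s e, t e) := by
      split_ifs
      · exact Sym2.mem_mk_left _ _
      · exact Sym2.mem_mk_right _ _
    have h2 : (if s e ∈ X then s e else t e) ∈ s(s e', t e') := by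
      rw [hee]
      split_ifs
      · exact Sym2.mem_mk_left _ _
      · exact Sym2.mem_mk_right _ _
    exact (hM _).unique ⟨he.1, h1⟩ ⟨he'.1, h2⟩

theorem cross_one {V E : Type} (s t : E → V) (hst : ∀ e, s e ≠ t e) (M : Finset E)
    (hM : ∀ x, ∃! y, y ∈ M ∧ x ∈ s(s y, t y)) (v : V) :
    (M.filter fun e => ¬ (s e ∈ ({v} : Finset V) ↔ t e ∈ ({v} : Finset V))).card = 1 := by
  obtain ⟨y, ⟨hy, hvy⟩, hyu⟩ := hM v
  rw [Finset.card_eq_one]
  refine ⟨y, ?_⟩
  ext e
  rw [Finset.mem_filter, Finset.mem_singleton, Finset.mem_singleton, Finset.mem_singleton]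
  have h1 := hst e
  constructor
  · rintro ⟨he, h2⟩
    refine hyu e ⟨he, ?_⟩
    rw [Sym2.mem_iff]
    by_contra h3
    rw [not_or] at h3
    exact h2 ⟨fun h => absurd h.symm h3.1, fun h => absurd h.symm h3.2⟩
  · rintro rfl
    refine ⟨hy, fun h => ?_⟩
    rw [Sym2.mem_iff] at hvy
    rcases hvy with rfl | rfl
    · exact h1 (h.1 rfl).symm
    · exact h1 (h.2 rfl)

theorem dd_split {V E : Type} [Fintype E] (s t : E → V) (M : Finset E) (X : Finset V) :
    dd s t X = dd (fun e : {e : E // e ∉ M} => s e.1) (fun e : {e : E // e ∉ M} => t e.1) X +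
      (M.filter fun e => ¬ (s e ∈ X ↔ t e ∈ X)).card := by
  unfold dd
  simp only [Finset.card_filter]
  have h1 : ∑ e : {e : E // e ∉ M}, (if ¬ (s e.1 ∈ X ↔ t e.1 ∈ X) then 1 else 0) =
      ∑ e ∈ univ.filter (fun e => e ∉ M), (if ¬ (s e ∈ X ↔ t e ∈ X) then 1 else 0) := by
    rw [Finset.sum_subtype (p := fun e => e ∉ M)]
    intro x
    simp
  rw [h1, ← Finset.sum_filter_add_sum_filter_not univ (fun e => e ∉ M)]
  congr 1
  refine Finset.sum_congr ?_ fun _ _ => rfl
  ext e
  simp

/-- Expanding regular multigraphs. -/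
theorem star_expand {V : Type} [Fintype V] (heven : Even (Fintype.card V)) (v : V) :
    ∀ (k : ℕ) (E : Type) [Fintype E] (s t : E → V), (∀ e, s e ≠ t e) → ∀ r : ℕ,
    (∀ v, dd s t {v} = r) →
    (∀ X : Finset V, Odd X.card → 2 * X.card ≤ Fintype.card V →
      r + k * (X.card - 1) ≤ dd s t X) →
    ∀ e : Fin (k + 1) → E, Function.Injective e → (∀ i, v ∈ s(s (e i), t (e i))) →
    ∃ M : Fin (k + 1) → Finset E, (∀ i, e i ∈ M i) ∧ (∀ i j, i ≠ j → Disjoint (M i) (M j)) ∧
      ∀ i, ∀ x : V, ∃! y : E, y ∈ M i ∧ x ∈ s(s y, t y) := by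
  have hodd : ∀ (E : Type) [Fintype E] (s t : E → V) (r k : ℕ),
      (∀ X : Finset V, Odd X.card → 2 * X.card ≤ Fintype.card V →
        r + k * (X.card - 1) ≤ dd s t X) → ∀ X : Finset V, Odd X.card → r ≤ dd s t X := by
    intro E _ s t r k h X hX
    by_cases hX2 : 2 * X.card ≤ Fintype.card V
    · have := h X hX hX2
      omega
    · have h1 : X.card + Xᶜ.card = Fintype.card V := Finset.card_add_card_compl X
      have h2 : Odd Xᶜ.card := by
        obtain ⟨a, ha⟩ := heven
        obtain ⟨b, hb⟩ := hX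
        exact ⟨a - b - 1, by omega⟩
      have h3 := h Xᶜ h2 (by omega)
      have h4 : dd s t Xᶜ = dd s t X := by
        unfold dd
        congr 1
        ext e
        simp only [Finset.mem_filter, Finset.mem_compl]
        tauto
      omega
  intro k
  induction k with
  | zero =>
    intro E _ s t hst r hreg hexp e he hev
    obtain ⟨M, h1, h2⟩ := one_edge s t hst heven hreg (hodd E s t r 0 hexp) (e 0)
    refine ⟨fun _ => M, fun i => ?_, fun i j hij => ?_, fun _ => h2⟩
    · have h3 : i = 0 := Subsingleton.elim (α := Fin 1) i 0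
      rw [h3]
      exact h1
    · exact absurd (Subsingleton.elim (α := Fin 1) i j) hij
  | succ k ih =>
    intro E _ s t hst r hreg hexp e he hev
    obtain ⟨M₀, h1, h2⟩ := one_edge s t hst heven hreg (hodd E s t r (k + 1) hexp) (e 0)
    have hr : 1 ≤ r := by
      have h3 := dd_split s t M₀ {v}
      rw [cross_one s t hst M₀ h2 v, hreg v] at h3
      omega
    have hnot : ∀ i : Fin (k + 1), e i.succ ∉ M₀ := by
      intro i hi
      have h3 := (h2 v).unique ⟨hi, hev i.succ⟩ ⟨h1, hev 0⟩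
      exact absurd (he h3) (Fin.succ_ne_zero i)
    obtain ⟨M', h3, h4, h5⟩ := ih {x : E // x ∉ M₀} (fun x => s x.1) (fun x => t x.1)
      (fun x => hst x.1) (r - 1)
      (fun u => by
        have h3 := dd_split s t M₀ {u}
        rw [cross_one s t hst M₀ h2 u, hreg u] at h3
        omega)
      (fun X hX hX2 => by
        have h3 := dd_split s t M₀ X
        have h4 := cross_le s t M₀ h2 X
        have h5 := hexp X hX hX2
        have h6 : (k + 1) * (X.card - 1) = k * (X.card - 1) + (X.card - 1) := by ring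
        have h7 := hX.pos
        omega)
      (fun i => ⟨e i.succ, hnot i⟩)
      (fun i j hij => Fin.succ_injective _ (he (by simpa using hij)))
      (fun i => hev i.succ)
    refine ⟨Fin.cons M₀ fun i => (M' i).map (Function.Embedding.subtype _), ?_, ?_, ?_⟩
    · intro i
      refine Fin.cases ?_ (fun j => ?_) i
      · rw [Fin.cons_zero]
        exact h1
      · rw [Fin.cons_succ]
        exact Finset.mem_map.2 ⟨_, h3 j, rfl⟩
    · have h6 : ∀ j, Disjoint M₀ ((M' j).map (Function.Embedding.subtype _)) := by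
        intro j
        rw [Finset.disjoint_left]
        intro x hx hx'
        obtain ⟨y, _, rfl⟩ := Finset.mem_map.1 hx'
        exact y.2 hx
      intro i j
      refine Fin.cases ?_ (fun i => ?_) i
      · refine Fin.cases ?_ (fun j => ?_) j
        · intro h
          exact absurd rfl h
        · intro _
          rw [Fin.cons_zero, Fin.cons_succ]
          exact h6 j
      · refine Fin.cases ?_ (fun j => ?_) j
        · intro _
          rw [Fin.cons_zero, Fin.cons_succ]
          exact (h6 i).symm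
        · intro hij
          rw [Fin.cons_succ, Fin.cons_succ]
          exact (Finset.disjoint_map _).2 (h4 i j fun h => hij (by rw [h]))
    · intro i
      refine Fin.cases ?_ (fun j => ?_) i
      · rw [Fin.cons_zero]
        exact h2
      · rw [Fin.cons_succ]
        intro x
        obtain ⟨y, ⟨h6, h7⟩, h8⟩ := h5 j x
        refine ⟨y.1, ⟨Finset.mem_map.2 ⟨y, h6, rfl⟩, h7⟩, ?_⟩
        rintro y' ⟨h9, h10⟩
        obtain ⟨z, hz, rfl⟩ := Finset.mem_map.1 h9
        have := h8 z ⟨hz, h10⟩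
        rw [this]
        rfl

end Pool.Agent.Lib.MP_6b611a_co
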