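import Pool.Agent.Lib.MP_6b611a_co.SP.Base

/-! Multigraphs without nearly tight odd sets. -/

set_option autoImplicit false

open Finset
open scoped Classical

namespace Pool.Agent.Lib.MP_6b611a_co

variable {V E : Type} [Fintype V] [Fintype E]

/-- If the parts are single vertices and there are few edges between them, then `S` is one half. -/
theorem half (s t : E → V) (hst : ∀ e, s e ≠ t e) {r D J : ℕ}
    (heven : Even (Fintype.card V))
    (hcut : ∀ X : Finset V, X.Nonempty → X ≠ univ → r ≤ dd s t X)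
    (hD : ∑ v, (dd s t {v} - r) ≤ D) (hr : D + 2 * J ≤ 2 * r)
    (S : Finset V) (𝒬 : Finset (Finset V)) (hSne : S.Nonempty) (hcard : S.card ≤ 𝒬.card)
    (hone : ∀ X ∈ 𝒬, X.card = 1) (hS : ∀ X ∈ 𝒬, Disjoint X S)
    (hdis : ∀ X ∈ 𝒬, ∀ Y ∈ 𝒬, X ≠ Y → Disjoint X Y) (hcov : ∀ x, x ∉ S → ∃ X ∈ 𝒬, x ∈ X)
    (hFF : (FF s t S 𝒬).card < J) : 2 * S.card = Fintype.card V := by
  have h1 : S.card + 𝒬.card = Fintype.card V := by
    have h2 : 𝒬.card = (𝒬.biUnion fun X => X).card := by
      rw [Finset.card_biUnion (fun X hX Y hY hXY => hdis X hX Y hY hXY),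
        Finset.sum_congr rfl (fun X hX => hone X hX), Finset.sum_const, smul_eq_mul, mul_one]
    rw [h2, ← Finset.card_union_of_disjoint, ← Finset.card_univ]
    · congr 1
      refine Finset.eq_univ_of_forall fun x => ?_
      rw [Finset.mem_union, Finset.mem_biUnion]
      by_cases hx : x ∈ S
      · exact Or.inl hx
      · exact Or.inr (hcov x hx)
    · rw [Finset.disjoint_biUnion_right]
      exact fun X hX => (hS X hX).symm
  by_contra hne
  have h3 : S.card + 2 ≤ 𝒬.card := by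
    obtain ⟨a, ha⟩ := heven
    omega
  have h7 := deg_count s t hst S 𝒬 hS hdis
  have h8 : ∑ v ∈ S, dd s t {v} ≤ S.card * r + D := by
    have h1 : ∑ v ∈ S, dd s t {v} ≤ ∑ v ∈ S, (r + (dd s t {v} - r)) :=
      Finset.sum_le_sum fun v _ => by omega
    rw [Finset.sum_add_distrib, Finset.sum_const, smul_eq_mul] at h1
    have h2 : ∑ v ∈ S, (dd s t {v} - r) ≤ ∑ v, (dd s t {v} - r) :=
      Finset.sum_le_sum_of_subset (Finset.subset_univ _)
    omega
  have h9 : 𝒬.card * r ≤ ∑ X ∈ 𝒬, dd s t X := by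
    rw [← smul_eq_mul, ← Finset.sum_const]
    refine Finset.sum_le_sum fun X hX => ?_
    refine hcut X (Finset.card_pos.1 (by rw [hone X hX]; norm_num)) ?_
    intro h
    obtain ⟨x, hx⟩ := hSne
    exact Finset.disjoint_left.1 (hS X hX) (by rw [h]; exact Finset.mem_univ x) hx
  have h11 : (S.card + 2) * r ≤ 𝒬.card * r := Nat.mul_le_mul_right _ h3
  have h12 : (S.card + 2) * r = S.card * r + 2 * r := by ring
  omega

/-- The case with a gap for the odd cuts. -/
theorem star_gap2 (s t : E → V) (hst : ∀ e, s e ≠ t e) {r k ℓ D : ℕ} (hk : 2 ≤ k)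
    (hcut : ∀ X : Finset V, X.Nonempty → X ≠ univ → r ≤ dd s t X)
    (heven : Even (Fintype.card V)) (hV : 4 ≤ Fintype.card V)
    (hℓ : 2 * Fintype.card V ≤ 2 ^ ℓ) (hkℓ : k ≤ 2 ^ ℓ) (hr : 64 * (k * ℓ) + 5 * D ≤ r)
    (hD : ∑ v, (dd s t {v} - r) ≤ D)
    (hgap : ∀ X : Finset V, Odd X.card → 3 ≤ X.card → X.card + 3 ≤ Fintype.card V →
      r + 24 * (k * ℓ) + 3 * D ≤ dd s t X)
    (hloc : 0 < D → ∀ S : Finset V, 2 * S.card = Fintype.card V → ∀ v ∈ S,
      min k (univ.filter fun x => v ∈ s(s x, t x) ∧ s x ∈ S ∧ t x ∈ S).card ≤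
        (FF s t S ∅).card)
    (v : V) (e : Fin k → E) (he : Function.Injective e) (hev : ∀ i, v ∈ s(s (e i), t (e i))) :
    ∃ M : Fin k → Finset E, (∀ i, e i ∈ M i) ∧ (∀ i j, i ≠ j → Disjoint (M i) (M j)) ∧
      ∀ i, ∀ x : V, ∃! y : E, y ∈ M i ∧ x ∈ s(s y, t y) := by
  have hℓ1 : 1 ≤ ℓ := by
    rcases Nat.eq_zero_or_pos ℓ with h0 | h0
    · rw [h0, pow_zero] at hℓ
      omega
    · exact h0
  have hkℓ1 : k ≤ k * ℓ := Nat.le_mul_of_pos_right k hℓ1
  choose w hvw hew using fun i => other_end s t hst v (e i) (hev i)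
  obtain ⟨z, hz, hz1, h16, hzr, hz0, hfin⟩ := numbers2 (n := Fintype.card V) (r := r) hk hV hℓ
    hkℓ (by omega)
  -- the sets which are one side of a nearly bipartite structure
  set J : ℕ := 8 * (k * ℓ) + D + 4 * k with hJ
  have hsmall : ∀ S S' : Finset V, v ∈ S → v ∈ S' → 2 * inn s t S ≤ D + 2 * (FF s t S ∅).card →
      (FF s t S ∅).card < J → 2 * inn s t S' ≤ D + 2 * (FF s t S' ∅).card →
      (FF s t S' ∅).card < J → S = S' := by
    intro S S' h1 h2 h3 h4 h5 h6
    have h7 := dd_symmDiff s t ∅ S S' (by simp) (by simp)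
    by_contra hne
    have h8 : (symmDiff S S').Nonempty := by
      rw [Finset.nonempty_iff_ne_empty]
      intro h
      exact hne (symmDiff_eq_bot.1 h)
    have h9 : symmDiff S S' ≠ univ := by
      intro h
      have h10 : v ∈ symmDiff S S' := by
        rw [h]
        exact Finset.mem_univ _
      rw [Finset.mem_symmDiff] at h10
      tauto
    have h10 := hcut _ h8 h9
    omega
  -- the forced edges
  have hforce : ∃ (A : Finset (Fin k)) (a : {i : Fin k // i ∈ A} → E), Function.Injective a ∧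
      ∀ S : Finset V, v ∈ S → 2 * S.card = Fintype.card V →
        2 * inn s t S ≤ D + 2 * (FF s t S ∅).card → (FF s t S ∅).card < J →
        ∀ i, w i ∈ S → ∃ h : i ∈ A, a ⟨i, h⟩ ∈ FF s t S ∅ := by
    by_cases hex : ∃ S : Finset V, v ∈ S ∧ 2 * S.card = Fintype.card V ∧
        2 * inn s t S ≤ D + 2 * (FF s t S ∅).card ∧ (FF s t S ∅).card < J
    · obtain ⟨S₀, h1, hhalf, h2, h3⟩ := hex
      set A : Finset (Fin k) := univ.filter fun i => w i ∈ S₀ with hA
      have h5 : A.image e ⊆ univ.filter fun x => v ∈ s(s x, t x) ∧ s x ∈ S₀ ∧ t x ∈ S₀ := by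
        intro x hx
        obtain ⟨i, hi, rfl⟩ := Finset.mem_image.1 hx
        have hwi : w i ∈ S₀ := (Finset.mem_filter.1 hi).2
        have hs : s (e i) ∈ s(v, w i) := by
          rw [← hew i]
          exact Sym2.mem_mk_left _ _
        have ht : t (e i) ∈ s(v, w i) := by
          rw [← hew i]
          exact Sym2.mem_mk_right _ _
        rw [Sym2.mem_iff] at hs ht
        refine Finset.mem_filter.2 ⟨Finset.mem_univ _, hev i, ?_, ?_⟩
        · rcases hs with h | h
          · rw [h]; exact h1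
          · rw [h]; exact hwi
        · rcases ht with h | h
          · rw [h]; exact h1
          · rw [h]; exact hwi
      have h6 := Finset.card_le_card h5
      rw [Finset.card_image_of_injective _ he] at h6
      have h4 : A.card ≤ (FF s t S₀ ∅).card := by
        rcases Nat.eq_zero_or_pos D with hD0 | hD0
        · have h7 : (univ.filter fun x => v ∈ s(s x, t x) ∧ s x ∈ S₀ ∧ t x ∈ S₀).card ≤
              inn s t S₀ := by
            unfold inn
            refine Finset.card_le_card fun x hx => ?_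
            rw [Finset.mem_filter] at hx
            exact Finset.mem_filter.2 ⟨hx.1, hx.2.2⟩
          omega
        · have h7 := hloc hD0 S₀ hhalf v h1
          have h8 : A.card ≤ k := (Finset.card_le_univ A).trans (le_of_eq (Fintype.card_fin k))
          exact (le_min h8 h6).trans h7
      have h9 : Fintype.card {i : Fin k // i ∈ A} ≤
          Fintype.card {x : E // x ∈ FF s t S₀ ∅} := by
        rw [Fintype.card_coe, Fintype.card_coe]
        exact h4
      obtain ⟨g⟩ := Function.Embedding.nonempty_of_card_le h9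
      refine ⟨A, fun i => (g i).1, fun i j hij => g.injective (Subtype.ext hij), ?_⟩
      intro S h6 _ h7 h8 i hi
      have h9 : S = S₀ := hsmall S S₀ h6 h1 h7 h8 h2 h3
      rw [h9] at hi ⊢
      have h10 : i ∈ A := Finset.mem_filter.2 ⟨Finset.mem_univ _, hi⟩
      exact ⟨h10, (g ⟨i, h10⟩).2⟩
    · refine ⟨∅, fun i => absurd i.2 (Finset.notMem_empty _), fun i => absurd i.2
        (Finset.notMem_empty _), ?_⟩
      intro S h6 hh h7 h8
      exact absurd ⟨S, h6, hh, h7, h8⟩ hex
  obtain ⟨A, a, hainj, hA⟩ := hforce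
  obtain ⟨c, hc⟩ := pick s t (r := r) (by omega) hcut heven (by omega) hz hz1 (by omega) h16 hzr
    (E₀ := 24 * (k * ℓ)) (by omega) hz0 0 (by
      intro 𝒩 h1 _
      rw [Nat.le_zero, Finset.card_eq_zero, Finset.eq_empty_iff_forall_notMem]
      intro X hX
      obtain ⟨h2, h3, h4, h5⟩ := h1 X hX
      have := hgap X h2 h3 h4
      omega) D (4 * (k * ℓ) * (5 * 0 + 2)) k (univ.image a) (by
        refine Finset.card_image_le.trans ?_
        rw [Finset.card_univ, Fintype.card_coe]
        exact (Finset.card_le_univ A).trans (le_of_eq (Fintype.card_fin k))) (hfin 0)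
  let c' : E → Fin k := fun x => if h : ∃ i, a i = x then h.choose.1 else c x
  have hc'a : ∀ i, c' (a i) = i.1 := by
    intro i
    have h : ∃ j, a j = a i := ⟨i, rfl⟩
    have h1 : c' (a i) = h.choose.1 := dif_pos h
    rw [h1, hainj h.choose_spec]
  have hc'c : ∀ x, x ∉ univ.image a → c' x = c x := by
    intro x hx
    refine dif_neg ?_
    rintro ⟨i, hi⟩
    exact hx (Finset.mem_image.2 ⟨i, Finset.mem_univ _, hi⟩)
  have hN : ∀ i, ∃ N : Finset E, N ⊆ (univ.filter fun x => c' x = i) ∧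
      (∀ x ∈ N, v ∉ s(s x, t x) ∧ w i ∉ s(s x, t x)) ∧
      ∀ x, x ≠ v → x ≠ w i → ∃! y, y ∈ N ∧ x ∈ s(s y, t y) := by
    intro i
    by_contra hcon
    obtain ⟨S, 𝒬, h1, h2, h3, h4, h5, h6, h7, h8⟩ := barrier s t hst heven v (w i) (hvw i) _ hcon
    have h11 := barrier_ineq s t hst hD hcut S 𝒬 ⟨v, h1⟩ h3 h4 h5 h6
    have hFQ := FF_filter s t hst S 𝒬 h4
    rw [← hFQ] at h8
    set 𝒩 := 𝒬.filter fun X => 3 ≤ X.card with h𝒩
    have h12 : ∀ X ∈ 𝒩, Odd X.card ∧ 3 ≤ X.card ∧ X.card + 3 ≤ Fintype.card V := by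
      intro X hX
      rw [h𝒩, Finset.mem_filter] at hX
      exact ⟨h4 X hX.1, hX.2, part_size heven v (w i) (hvw i) S X h1 h2 (h5 X hX.1) (h4 X hX.1)⟩
    by_cases hbig : J ≤ (FF s t S 𝒩).card
    · obtain ⟨x, hx, hxim, hxi⟩ := hc i S 𝒩 h12
        (fun X hX Y hY => h6 X (Finset.mem_filter.1 hX).1 Y (Finset.mem_filter.1 hY).1)
        (fun X hX => h5 X (Finset.mem_filter.1 hX).1) h11 (by omega)
      exact h8 x hx (Finset.mem_filter.2 ⟨Finset.mem_univ _, by rw [hc'c x hxim, hxi]⟩)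
    · rw [not_le] at hbig
      have h13 : 𝒩 = ∅ := by
        rw [Finset.eq_empty_iff_forall_notMem]
        intro X hX
        obtain ⟨h14, h15, h16⟩ := h12 X hX
        have h17 := hgap X h14 h15 h16
        have h18 : dd s t X - r ≤ ∑ X ∈ 𝒩, (dd s t X - r) :=
          Finset.single_le_sum (f := fun X => dd s t X - r) (fun _ _ => Nat.zero_le _) hX
        omega
      have hone : ∀ X ∈ 𝒬, X.card = 1 := by
        intro X hX
        by_contra hne
        have h14 : X ∈ 𝒩 := by
          rw [h𝒩, Finset.mem_filter]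
          obtain ⟨b, hb⟩ := h4 X hX
          exact ⟨hX, by omega⟩
        rw [h13] at h14
        exact Finset.notMem_empty _ h14
      have hhalf := half s t hst heven hcut hD (J := J) (by omega) S 𝒬 ⟨v, h1⟩ h3 hone h5 h6 h7
        (by rw [← hFQ]; exact hbig)
      rw [h13] at h8 hbig h11
      rw [Finset.sum_empty, zero_add] at h11
      obtain ⟨h14, h15⟩ := hA S h1 hhalf h11 hbig i h2
      exact h8 _ h15 (Finset.mem_filter.2 ⟨Finset.mem_univ _, hc'a ⟨i, h14⟩⟩)
  choose N hN1 hN2 hN3 using hN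
  refine assemble s t v w e he hew N (fun i j hij => ?_) hN2 hN3
  rw [Finset.disjoint_left]
  intro x hx hx'
  exact hij ((Finset.mem_filter.1 (hN1 i hx)).2.symm.trans (Finset.mem_filter.1 (hN1 j hx')).2)

end Pool.Agent.Lib.MP_6b611a_co
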