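import Pool.Agent.Lib.MP_6b611a_co.SP.Base

/-! Multigraphs which stay bicritical when few edges are deleted. -/

set_option autoImplicit false

open Finset
open scoped Classical

namespace Pool.Agent.Lib.MP_6b611a_co

variable {V E : Type} [Fintype V] [Fintype E]

/-- The union bound over the barriers with at least `J` edges between their parts. -/
theorem pick2 (s t : E → V) {r : ℕ} (hr : 1 ≤ r)
    (hcut : ∀ X : Finset V, X.Nonempty → X ≠ univ → r ≤ dd s t X)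
    (heven : Even (Fintype.card V)) (hV : 2 ≤ Fintype.card V)
    {y z : ℝ} (hy : 0 < y) (hy1 : y ≤ 1) (hz : 0 < z) (hzy : z ≤ y ^ 2) {k : ℕ} (hk : 1 ≤ k)
    (hzk : z ^ 16 = 1 - 1 / k)
    (hyr : y ^ r * (2 * Fintype.card V : ℝ) ^ 4 ≤ 1) {g : ℕ} (hgr : g ≤ r)
    (hyg : y ^ (4 * g) * (2 * Fintype.card V : ℝ) ^ 6 ≤ 1) (τ : ℕ)
    (hτ : ∀ 𝒩 : Finset (Finset V), (∀ X ∈ 𝒩, Odd X.card ∧ 3 ≤ X.card ∧
        X.card + 3 ≤ Fintype.card V ∧ dd s t X < r + g) →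
      (∀ X ∈ 𝒩, ∀ Y ∈ 𝒩, X ≠ Y → Disjoint X Y) → 𝒩.card ≤ τ)
    (D J : ℕ) (hfin : 5 * k * z ^ (8 * J) * (2 * Fintype.card V : ℝ) ^ (5 * τ) < y ^ (4 * D)) :
    ∃ c : E → Fin k, ∀ j, ∀ (S : Finset V) (𝒩 : Finset (Finset V)),
      (∀ X ∈ 𝒩, Odd X.card ∧ 3 ≤ X.card ∧ X.card + 3 ≤ Fintype.card V) →
      (∀ X ∈ 𝒩, ∀ Y ∈ 𝒩, X ≠ Y → Disjoint X Y) → (∀ X ∈ 𝒩, Disjoint X S) →
      ∑ X ∈ 𝒩, (dd s t X - r) + 2 * inn s t S ≤ D + 2 * (FF s t S 𝒩).card →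
      J ≤ (FF s t S 𝒩).card → ∃ x ∈ FF s t S 𝒩, c x = j := by
  by_contra hcon
  push Not at hcon
  have hVne : Nonempty V := Fintype.card_pos_iff.1 (by omega)
  have hz1 : z ≤ 1 := hzy.trans (pow_le_one₀ hy.le hy1)
  have huniv : ∀ X : Finset V, Odd X.card → X ≠ univ := by
    intro X hX h
    rw [h, Finset.card_univ] at hX
    exact (Nat.not_even_iff_odd.2 hX) heven
  set 𝔉 : Finset (Finset (Finset V)) := univ.filter fun 𝒩 =>
    (∀ X ∈ 𝒩, Odd X.card ∧ 3 ≤ X.card ∧ X.card + 3 ≤ Fintype.card V) ∧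
      (∀ X ∈ 𝒩, ∀ Y ∈ 𝒩, X ≠ Y → Disjoint X Y) with h𝔉
  set 𝒮 : Finset (Finset V) → Finset (Finset V) := fun 𝒩 => univ.filter fun S =>
    (∀ X ∈ 𝒩, Disjoint X S) ∧
      (∑ X ∈ 𝒩, (dd s t X - r) + 2 * inn s t S ≤ D + 2 * (FF s t S 𝒩).card ∧
        J ≤ (FF s t S 𝒩).card) with h𝒮
  have h1 : (univ : Finset (E → Fin k)) ⊆ (univ : Finset (Fin k)).biUnion fun j =>
      𝔉.biUnion fun 𝒩 => (𝒮 𝒩).biUnion fun S =>
        univ.filter fun c : E → Fin k => ∀ e ∈ FF s t S 𝒩, c e ≠ j := by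
    intro c _
    obtain ⟨j, S, 𝒩, h2, h3, h4, h5, h6, h7⟩ := hcon c
    rw [Finset.mem_biUnion]
    refine ⟨j, Finset.mem_univ _, ?_⟩
    rw [Finset.mem_biUnion]
    refine ⟨𝒩, Finset.mem_filter.2 ⟨Finset.mem_univ _, h2, h3⟩, ?_⟩
    rw [Finset.mem_biUnion]
    refine ⟨S, Finset.mem_filter.2 ⟨Finset.mem_univ _, h4, h5, h6⟩, ?_⟩
    exact Finset.mem_filter.2 ⟨Finset.mem_univ _, fun e he => h7 e he⟩
  have h2 : (k : ℝ) ^ Fintype.card E ≤ ∑ j : Fin k, ∑ 𝒩 ∈ 𝔉, ∑ S ∈ 𝒮 𝒩,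
      (((univ : Finset (E → Fin k)).filter fun c => ∀ e ∈ FF s t S 𝒩, c e ≠ j).card : ℝ) := by
    have h3 : (univ : Finset (E → Fin k)).card ≤ ∑ j : Fin k, ∑ 𝒩 ∈ 𝔉, ∑ S ∈ 𝒮 𝒩,
        ((univ : Finset (E → Fin k)).filter fun c => ∀ e ∈ FF s t S 𝒩, c e ≠ j).card := by
      refine (Finset.card_le_card h1).trans (Finset.card_biUnion_le.trans ?_)
      refine Finset.sum_le_sum fun j _ => Finset.card_biUnion_le.trans ?_
      exact Finset.sum_le_sum fun 𝒩 _ => Finset.card_biUnion_le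
    rw [Finset.card_univ, Fintype.card_fun, Fintype.card_fin] at h3
    exact_mod_cast h3
  set W : ℝ := z ^ (8 * J) / y ^ (4 * D) with hW
  have hW0 : 0 < W := by positivity
  have h3 : ∀ j : Fin k, ∑ 𝒩 ∈ 𝔉, ∑ S ∈ 𝒮 𝒩,
      (((univ : Finset (E → Fin k)).filter fun c => ∀ e ∈ FF s t S 𝒩, c e ≠ j).card : ℝ) ≤
      (k : ℝ) ^ Fintype.card E * W * (5 / 2) * (2 * (2 * Fintype.card V : ℝ) ^ (5 * τ)) := by
    intro j
    have h4 : ∀ 𝒩 ∈ 𝔉, ∑ S ∈ 𝒮 𝒩,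
        (((univ : Finset (E → Fin k)).filter fun c => ∀ e ∈ FF s t S 𝒩, c e ≠ j).card : ℝ) ≤
        ((k : ℝ) ^ Fintype.card E * W * (5 / 2)) * y ^ (4 * ∑ X ∈ 𝒩, (dd s t X - r)) := by
      intro 𝒩 h𝒩
      have h5 : ∀ S ∈ 𝒮 𝒩,
          (((univ : Finset (E → Fin k)).filter fun c => ∀ e ∈ FF s t S 𝒩, c e ≠ j).card : ℝ) ≤
          ((k : ℝ) ^ Fintype.card E * W * y ^ (4 * ∑ X ∈ 𝒩, (dd s t X - r))) *
            y ^ (4 * (inn s t S + (FF s t S 𝒩).card)) := by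
        intro S hS
        obtain ⟨h6, h7⟩ := (Finset.mem_filter.1 hS).2.2
        rw [count_avoid k hk, ← hzk, ← pow_mul, mul_assoc, mul_assoc]
        refine mul_le_mul_of_nonneg_left ?_ (by positivity)
        have h8 : z ^ (16 * (FF s t S 𝒩).card) =
            z ^ (8 * (FF s t S 𝒩).card) * z ^ (8 * (FF s t S 𝒩).card) := by
          rw [← pow_add]
          congr 1
          ring
        have h9 : z ^ (8 * (FF s t S 𝒩).card) ≤ z ^ (8 * J) :=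
          pow_le_pow_of_le_one hz.le hz1 (by omega)
        have h10 : z ^ (8 * (FF s t S 𝒩).card) ≤ y ^ (16 * (FF s t S 𝒩).card) := by
          have h11 : y ^ (16 * (FF s t S 𝒩).card) = (y ^ 2) ^ (8 * (FF s t S 𝒩).card) := by
            rw [← pow_mul]
            congr 1
            ring
          rw [h11]
          exact pow_le_pow_left₀ hz.le hzy _
        have h12 : y ^ (16 * (FF s t S 𝒩).card) * y ^ (4 * D) ≤
            y ^ (4 * ∑ X ∈ 𝒩, (dd s t X - r)) * y ^ (4 * (inn s t S + (FF s t S 𝒩).card)) := by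
          rw [← pow_add, ← pow_add]
          refine pow_le_pow_of_le_one hy.le hy1 ?_
          omega
        have hyD : 0 < y ^ (4 * D) := pow_pos hy _
        rw [h8, hW, div_mul_eq_mul_div, le_div_iff₀ hyD]
        calc z ^ (8 * (FF s t S 𝒩).card) * z ^ (8 * (FF s t S 𝒩).card) * y ^ (4 * D)
            ≤ z ^ (8 * J) * y ^ (16 * (FF s t S 𝒩).card) * y ^ (4 * D) := by
              refine mul_le_mul_of_nonneg_right ?_ hyD.le
              exact mul_le_mul h9 h10 (pow_nonneg hz.le _) (pow_nonneg hz.le _)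
          _ = z ^ (8 * J) * (y ^ (16 * (FF s t S 𝒩).card) * y ^ (4 * D)) := by ring
          _ ≤ _ := mul_le_mul_of_nonneg_left h12 (pow_nonneg hz.le _)
      refine (Finset.sum_le_sum h5).trans ?_
      rw [← Finset.mul_sum]
      have h6 := sum_S hr hcut hV hy hy1 hyr 𝒩 (𝒮 𝒩) (fun S hS => (Finset.mem_filter.1 hS).2.1)
      have h7 : 0 ≤ (k : ℝ) ^ Fintype.card E * W *
          y ^ (4 * ∑ X ∈ 𝒩, (dd s t X - r)) := by positivity
      calc _ ≤ ((k : ℝ) ^ Fintype.card E * W *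
            y ^ (4 * ∑ X ∈ 𝒩, (dd s t X - r))) * (5 / 2) := mul_le_mul_of_nonneg_left h6 h7
        _ = _ := by ring
    refine (Finset.sum_le_sum h4).trans ?_
    rw [← Finset.mul_sum]
    refine mul_le_mul_of_nonneg_left ?_ (by positivity)
    refine sum_fam hr hcut hV hy hy1 hyr hgr hyg τ 𝔉 fun 𝒩 h𝒩 => ?_
    have h5 := (Finset.mem_filter.1 h𝒩).2
    refine ⟨fun X hX => ⟨Finset.card_pos.1 (h5.1 X hX).1.pos, huniv X (h5.1 X hX).1⟩, ?_⟩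
    refine hτ _ (fun X hX => ?_) (fun X hX Y hY => ?_)
    · rw [Finset.mem_filter] at hX
      exact ⟨(h5.1 X hX.1).1, (h5.1 X hX.1).2.1, (h5.1 X hX.1).2.2, hX.2⟩
    · exact h5.2 X (Finset.mem_filter.1 hX).1 Y (Finset.mem_filter.1 hY).1
  have h4 := h2.trans (Finset.sum_le_sum fun j _ => h3 j)
  rw [Finset.sum_const, Finset.card_univ, Fintype.card_fin, nsmul_eq_mul] at h4
  have h5 : (0 : ℝ) < (k : ℝ) ^ Fintype.card E := by
    have : (0 : ℝ) < k := by exact_mod_cast hk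
    positivity
  have h6 : (k : ℝ) * ((k : ℝ) ^ Fintype.card E * W * (5 / 2) *
      (2 * (2 * Fintype.card V : ℝ) ^ (5 * τ))) =
      (k : ℝ) ^ Fintype.card E * (5 * k * W * (2 * Fintype.card V : ℝ) ^ (5 * τ)) := by
    ring
  rw [h6] at h4
  have h7 : 5 * k * W * (2 * Fintype.card V : ℝ) ^ (5 * τ) < 1 := by
    have hyD : 0 < y ^ (4 * D) := pow_pos hy _
    have h8 : 5 * k * W * (2 * Fintype.card V : ℝ) ^ (5 * τ) =
        (5 * k * z ^ (8 * J) * (2 * Fintype.card V : ℝ) ^ (5 * τ)) / y ^ (4 * D) := by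
      rw [hW]
      field_simp
    rw [h8, div_lt_one hyD]
    exact hfin
  nlinarith

/-- The numbers. -/
theorem numbers3 {k ℓ n r g τ D J : ℕ} (hk : 2 ≤ k) (hn : 4 ≤ n) (hℓ : 2 * n ≤ 2 ^ ℓ)
    (hkℓ : k ≤ 2 ^ ℓ) (hg : 128 * (k * ℓ) ≤ g) (hgr : g ≤ r)
    (hJ : 2 * (k * ℓ) * (16 * D + (5 * τ + 3) * g) ≤ J * g) :
    ∃ y z : ℝ, 0 < y ∧ y ≤ 1 ∧ 0 < z ∧ z ≤ y ^ 2 ∧ z ^ 16 = 1 - 1 / k ∧
      y ^ r * (2 * n : ℝ) ^ 4 ≤ 1 ∧ y ^ (4 * g) * (2 * n : ℝ) ^ 6 ≤ 1 ∧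
      5 * k * z ^ (8 * J) * (2 * n : ℝ) ^ (5 * τ) < y ^ (4 * D) := by
  obtain ⟨z, hz, hz1, h16, hhalf⟩ := exists_z hk
  have hℓ3 : 3 ≤ ℓ := by
    by_contra h
    have h1 : ℓ ≤ 2 := by omega
    have h2 : 2 ^ ℓ ≤ 2 ^ 2 := Nat.pow_le_pow_right (by norm_num) h1
    omega
  have hkℓ0 : 1 ≤ k * ℓ := Nat.one_le_iff_ne_zero.2 (by positivity)
  have hg0 : g ≠ 0 := by omega
  set y : ℝ := ((1 / 2 : ℝ) ^ (4 * ℓ)) ^ ((1 : ℝ) / g) with hydef
  have hbase : (0 : ℝ) < (1 / 2 : ℝ) ^ (4 * ℓ) := by positivity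
  have hy : 0 < y := Real.rpow_pos_of_pos hbase _
  have hy1 : y ≤ 1 := Real.rpow_le_one hbase.le (pow_le_one₀ (by norm_num) (by norm_num))
    (by positivity)
  have hyg : y ^ g = (1 / 2 : ℝ) ^ (4 * ℓ) := by
    rw [hydef, one_div (g : ℝ), Real.rpow_inv_natCast_pow hbase.le hg0]
  have hn0 : (0 : ℝ) < 2 * n := by
    have : (0 : ℝ) < n := by exact_mod_cast (by omega : 0 < n)
    linarith
  have hnℓ : (2 * n : ℝ) ≤ 2 ^ ℓ := by exact_mod_cast hℓ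
  have hhalf2 : ∀ m : ℕ, (1 / 2 : ℝ) ^ (ℓ * m) * (2 * n : ℝ) ^ m ≤ 1 := by
    intro m
    rw [pow_mul, ← mul_pow]
    refine pow_le_one₀ (by positivity) ?_
    calc (1 / 2 : ℝ) ^ ℓ * (2 * n) ≤ (1 / 2 : ℝ) ^ ℓ * 2 ^ ℓ :=
          mul_le_mul_of_nonneg_left hnℓ (by positivity)
      _ = 1 := by rw [← mul_pow]; norm_num
  have hzy : z ≤ y ^ 2 := by
    by_contra hcon
    rw [not_le] at hcon
    have h1 : (y ^ 2) ^ (16 * g) < z ^ (16 * g) :=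
      pow_lt_pow_left₀ hcon (by positivity) (by omega)
    have h2 : (y ^ 2) ^ (16 * g) = (1 / 2 : ℝ) ^ (128 * ℓ) := by
      rw [← pow_mul, show 2 * (16 * g) = g * 32 by ring, pow_mul, hyg, ← pow_mul]
      congr 1
      ring
    have h3 : z ^ (16 * g) ≤ (1 / 2 : ℝ) ^ (128 * ℓ) := by
      calc z ^ (16 * g) ≤ z ^ (16 * (128 * (k * ℓ))) :=
            pow_le_pow_of_le_one hz.le hz1 (by omega)
        _ = (z ^ (16 * k)) ^ (128 * ℓ) := by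
            rw [← pow_mul]
            congr 1
            ring
        _ ≤ (1 / 2 : ℝ) ^ (128 * ℓ) := pow_le_pow_left₀ (by positivity) hhalf _
    linarith
  refine ⟨y, z, hy, hy1, hz, hzy, h16, ?_, ?_, ?_⟩
  · calc y ^ r * (2 * n : ℝ) ^ 4 ≤ y ^ g * (2 * n : ℝ) ^ 4 :=
          mul_le_mul_of_nonneg_right (pow_le_pow_of_le_one hy.le hy1 hgr) (by positivity)
      _ = (1 / 2 : ℝ) ^ (ℓ * 4) * (2 * n : ℝ) ^ 4 := by rw [hyg, mul_comm 4 ℓ]
      _ ≤ 1 := hhalf2 4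
  · have h1 : y ^ (4 * g) = (1 / 2 : ℝ) ^ (16 * ℓ) := by
      rw [mul_comm 4 g, pow_mul, hyg, ← pow_mul]
      congr 1
      ring
    rw [h1]
    calc (1 / 2 : ℝ) ^ (16 * ℓ) * (2 * n : ℝ) ^ 6 ≤ (1 / 2 : ℝ) ^ (ℓ * 6) * (2 * n : ℝ) ^ 6 :=
          mul_le_mul_of_nonneg_right (pow_le_pow_of_le_one (by norm_num) (by norm_num) (by omega))
            (by positivity)
      _ ≤ 1 := hhalf2 6
  · by_contra hcon
    rw [not_lt] at hcon
    have hyD : 0 < y ^ (4 * D) := pow_pos hy _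
    have h1 : (y ^ (4 * D)) ^ g ≤ (5 * k * z ^ (8 * J) * (2 * n : ℝ) ^ (5 * τ)) ^ g :=
      pow_le_pow_left₀ hyD.le hcon g
    have h2 : (y ^ (4 * D)) ^ g = (1 / 2 : ℝ) ^ (16 * (ℓ * D)) := by
      rw [← pow_mul, show 4 * D * g = g * (4 * D) by ring, pow_mul, hyg, ← pow_mul]
      congr 1
      ring
    have h5k : (5 : ℝ) * k ≤ 2 ^ (2 * ℓ) := by
      have h3 : (k : ℝ) ≤ 2 ^ ℓ := by exact_mod_cast hkℓ
      have h4 : (5 : ℝ) ≤ 2 ^ ℓ := by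
        have : (2 : ℝ) ^ 3 ≤ 2 ^ ℓ := pow_le_pow_right₀ (by norm_num) hℓ3
        linarith
      calc (5 : ℝ) * k ≤ 2 ^ ℓ * 2 ^ ℓ := mul_le_mul h4 h3 (by positivity) (by positivity)
        _ = 2 ^ (2 * ℓ) := by rw [← pow_add]; congr 1; ring
    have h2n : (2 * n : ℝ) ^ (5 * τ) ≤ 2 ^ (5 * τ * ℓ) := by
      calc (2 * n : ℝ) ^ (5 * τ) ≤ (2 ^ ℓ) ^ (5 * τ) := pow_le_pow_left₀ hn0.le hnℓ _
        _ = 2 ^ (5 * τ * ℓ) := by rw [← pow_mul]; congr 1; ring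
    have h3 : (5 * k * z ^ (8 * J) * (2 * n : ℝ) ^ (5 * τ)) ^ g ≤
        2 ^ ((2 * ℓ + 5 * τ * ℓ) * g) * z ^ (8 * J * g) := by
      have h31 : (2 : ℝ) ^ ((2 * ℓ + 5 * τ * ℓ) * g) = (2 ^ (2 * ℓ + 5 * τ * ℓ)) ^ g := pow_mul _ _ _
      have h32 : z ^ (8 * J * g) = (z ^ (8 * J)) ^ g := pow_mul _ _ _
      rw [h31, h32, ← mul_pow]
      refine pow_le_pow_left₀ (by positivity) ?_ g
      calc 5 * k * z ^ (8 * J) * (2 * n : ℝ) ^ (5 * τ)
          = (5 * k) * (2 * n : ℝ) ^ (5 * τ) * z ^ (8 * J) := by ring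
        _ ≤ 2 ^ (2 * ℓ) * 2 ^ (5 * τ * ℓ) * z ^ (8 * J) := by
            refine mul_le_mul_of_nonneg_right ?_ (by positivity)
            exact mul_le_mul h5k h2n (by positivity) (by positivity)
        _ = _ := by rw [← pow_add]
    have h4 : z ^ (8 * J * g) ≤ (1 / 2 : ℝ) ^ (ℓ * (16 * D + (5 * τ + 3) * g)) := by
      calc z ^ (8 * J * g) ≤ z ^ (8 * (2 * (k * ℓ) * (16 * D + (5 * τ + 3) * g))) := by
            refine pow_le_pow_of_le_one hz.le hz1 ?_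
            calc 8 * (2 * (k * ℓ) * (16 * D + (5 * τ + 3) * g)) ≤ 8 * (J * g) :=
                  Nat.mul_le_mul_left _ hJ
              _ = 8 * J * g := by ring
        _ = (z ^ (16 * k)) ^ (ℓ * (16 * D + (5 * τ + 3) * g)) := by
            rw [← pow_mul]
            congr 1
            ring
        _ ≤ _ := pow_le_pow_left₀ (by positivity) hhalf _
    have h5 : (1 / 2 : ℝ) ^ (16 * (ℓ * D)) ≤
        2 ^ ((2 * ℓ + 5 * τ * ℓ) * g) * (1 / 2 : ℝ) ^ (ℓ * (16 * D + (5 * τ + 3) * g)) := by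
      rw [← h2]
      exact h1.trans (h3.trans (mul_le_mul_of_nonneg_left h4 (by positivity)))
    have h6 : (2 : ℝ) ^ ((2 * ℓ + 5 * τ * ℓ) * g) *
        (1 / 2 : ℝ) ^ (ℓ * (16 * D + (5 * τ + 3) * g)) =
        (1 / 2 : ℝ) ^ (16 * (ℓ * D)) * (1 / 2 : ℝ) ^ (ℓ * g) := by
      have h7 : ℓ * (16 * D + (5 * τ + 3) * g) =
          (2 * ℓ + 5 * τ * ℓ) * g + (16 * (ℓ * D) + ℓ * g) := by ring
      rw [h7, pow_add (1 / 2 : ℝ), ← mul_assoc, ← mul_pow, show (2 : ℝ) * (1 / 2) = 1 by norm_num,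
        one_pow, one_mul, pow_add]
    rw [h6] at h5
    have h8 : (1 / 2 : ℝ) ^ (ℓ * g) < 1 := pow_lt_one₀ (by norm_num) (by norm_num)
      (Nat.mul_ne_zero (by omega) hg0)
    have h9 : (0 : ℝ) < (1 / 2 : ℝ) ^ (16 * (ℓ * D)) := by positivity
    nlinarith

omit [Fintype E] in
/-- A matching which covers all vertices but two vertices `u`, `w` of `S`, and which has no edge
between the parts. -/
theorem count_parts (s t : E → V) (hst : ∀ e, s e ≠ t e) (S : Finset V) (𝒬 : Finset (Finset V))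
    (hodd : ∀ X ∈ 𝒬, Odd X.card) (hS : ∀ X ∈ 𝒬, Disjoint X S)
    (hdis : ∀ X ∈ 𝒬, ∀ Y ∈ 𝒬, X ≠ Y → Disjoint X Y) (u w : V) (huw : u ≠ w)
    (hu : u ∈ S) (hw : w ∈ S) (N : Finset E)
    (hN1 : ∀ e ∈ N, u ∉ s(s e, t e) ∧ w ∉ s(s e, t e))
    (hN2 : ∀ x, x ≠ u → x ≠ w → ∃! e, e ∈ N ∧ x ∈ s(s e, t e))
    (hN3 : ∀ e ∈ N, s e ∉ S → t e ∉ S → ∃ X ∈ 𝒬, s e ∈ X ∧ t e ∈ X) :
    𝒬.card + 2 ≤ S.card := by
  have h1 : ∀ x, ∃ p, x ≠ u → x ≠ w → p ≠ x ∧ ∃ e ∈ N, s(s e, t e) = s(x, p) := by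
    intro x
    by_cases hx : x ≠ u ∧ x ≠ w
    · obtain ⟨e, ⟨he, hxe⟩, _⟩ := hN2 x hx.1 hx.2
      obtain ⟨p, hp, hep⟩ := other_end s t hst x e hxe
      exact ⟨p, fun _ _ => ⟨hp.symm, e, he, hep⟩⟩
    · exact ⟨x, fun h2 h3 => absurd ⟨h2, h3⟩ hx⟩
  choose p hp using h1
  have hpu : ∀ x, x ≠ u → x ≠ w → p x ≠ u ∧ p x ≠ w := by
    intro x hx1 hx2
    obtain ⟨_, e, he, hep⟩ := hp x hx1 hx2
    have h2 := hN1 e he
    rw [hep, Sym2.mem_iff, Sym2.mem_iff] at h2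
    refine ⟨fun h => h2.1 (Or.inr h.symm), fun h => h2.2 (Or.inr h.symm)⟩
  have hpp : ∀ x, x ≠ u → x ≠ w → p (p x) = x := by
    intro x hx1 hx2
    obtain ⟨hne, e, he, hep⟩ := hp x hx1 hx2
    obtain ⟨h3, h4⟩ := hpu x hx1 hx2
    obtain ⟨_, e', he', hep'⟩ := hp (p x) h3 h4
    have h5 : e = e' := (hN2 (p x) h3 h4).unique
      ⟨he, by rw [hep]; exact Sym2.mem_mk_right _ _⟩
      ⟨he', by rw [hep']; exact Sym2.mem_mk_left _ _⟩
    rw [← h5, hep] at hep'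
    have h6 : x ∈ s(p x, p (p x)) := by
      rw [← hep']
      exact Sym2.mem_mk_left _ _
    rw [Sym2.mem_iff] at h6
    rcases h6 with h6 | h6
    · exact absurd h6.symm hne
    · exact h6.symm
  have hXu : ∀ X ∈ 𝒬, ∀ x ∈ X, x ≠ u ∧ x ≠ w := by
    intro X hX x hx
    refine ⟨?_, ?_⟩
    · rintro rfl
      exact Finset.disjoint_left.1 (hS X hX) hx hu
    · rintro rfl
      exact Finset.disjoint_left.1 (hS X hX) hx hw
  have h2 : ∀ X ∈ 𝒬, ∃ x ∈ X, p x ∉ X := by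
    intro X hX
    by_contra hcon
    push Not at hcon
    have h3 : Even X.card := by
      have h4 : ∑ _x ∈ X, (1 : ZMod 2) = 0 := by
        refine Finset.sum_involution (fun x _ => p x) (fun x _ => by decide) (fun x hx _ => ?_)
          (fun x hx => hcon x hx) (fun x hx => ?_)
        · obtain ⟨h5, h6⟩ := hXu X hX x hx
          exact (hp x h5 h6).1
        · obtain ⟨h5, h6⟩ := hXu X hX x hx
          exact hpp x h5 h6
      rw [Finset.sum_const, nsmul_eq_mul, mul_one] at h4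
      exact (ZMod.natCast_eq_zero_iff_even).1 h4
    exact (Nat.not_even_iff_odd.2 (hodd X hX)) h3
  have h2' : ∀ X : Finset V, ∃ x, X ∈ 𝒬 → x ∈ X ∧ p x ∉ X := by
    intro X
    by_cases hX : X ∈ 𝒬
    · obtain ⟨x, hx⟩ := h2 X hX
      exact ⟨x, fun _ => hx⟩
    · exact ⟨u, fun h => absurd h hX⟩
  choose f hf using h2'
  have hf1 : ∀ X ∈ 𝒬, f X ∈ X := fun X hX => (hf X hX).1
  have hf2 : ∀ X ∈ 𝒬, p (f X) ∉ X := fun X hX => (hf X hX).2
  have h3 : ∀ X ∈ 𝒬, p (f X) ∈ S \ {u, w} := by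
    intro X hX
    obtain ⟨h4, h5⟩ := hXu X hX (f X) (hf1 X hX)
    obtain ⟨h6, h7⟩ := hpu (f X) h4 h5
    rw [Finset.mem_sdiff, Finset.mem_insert, Finset.mem_singleton, not_or]
    refine ⟨?_, h6, h7⟩
    by_contra hcon
    obtain ⟨_, e, he, hep⟩ := hp (f X) h4 h5
    have h8 : f X ∉ S := fun h => Finset.disjoint_left.1 (hS X hX) (hf1 X hX) h
    have h9 : s e ∈ s(f X, p (f X)) := by rw [← hep]; exact Sym2.mem_mk_left _ _
    have h10 : t e ∈ s(f X, p (f X)) := by rw [← hep]; exact Sym2.mem_mk_right _ _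
    have h11 : f X ∈ s(s e, t e) := by rw [hep]; exact Sym2.mem_mk_left _ _
    have h12 : p (f X) ∈ s(s e, t e) := by rw [hep]; exact Sym2.mem_mk_right _ _
    rw [Sym2.mem_iff] at h9 h10 h11 h12
    obtain ⟨Y, hY, h13, h14⟩ := hN3 e he
      (by rcases h9 with h | h <;> rw [h] <;> assumption)
      (by rcases h10 with h | h <;> rw [h] <;> assumption)
    have h15 : f X ∈ Y := by rcases h11 with h | h <;> rw [h] <;> assumption
    have h16 : p (f X) ∈ Y := by rcases h12 with h | h <;> rw [h] <;> assumption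
    have h17 : X = Y := by
      by_contra hne
      exact Finset.disjoint_left.1 (hdis X hX Y hY hne) (hf1 X hX) h15
    rw [← h17] at h16
    exact hf2 X hX h16
  have h4 : 𝒬.card ≤ (S \ {u, w}).card := by
    refine Finset.card_le_card_of_injOn (fun X => p (f X)) (fun X hX => h3 X hX) ?_
    intro X hX Y hY hXY
    simp only at hXY
    obtain ⟨h5, h6⟩ := hXu X hX (f X) (hf1 X hX)
    obtain ⟨h7, h8⟩ := hXu Y hY (f Y) (hf1 Y hY)
    have h9 : f X = f Y := by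
      rw [← hpp (f X) h5 h6, hXY, hpp (f Y) h7 h8]
    by_contra hne
    exact Finset.disjoint_left.1 (hdis X hX Y hY hne) (hf1 X hX) (by rw [h9]; exact hf1 Y hY)
  have h5 : (S \ {u, w}).card + 2 = S.card := by
    have h6 : ({u, w} : Finset V) ⊆ S := by
      intro x hx
      rw [Finset.mem_insert, Finset.mem_singleton] at hx
      rcases hx with rfl | rfl
      · exact hu
      · exact hw
    have h7 := Finset.card_sdiff_add_card_eq_card h6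
    rw [Finset.card_pair huw] at h7
    exact h7
  omega

end Pool.Agent.Lib.MP_6b611a_co
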