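import Pool.Agent.Lib.MP_6b611a_co.SP.Splice
import Pool.Agent.Lib.MP_6b611a_co.SP.Robust
import Pool.Agent.Lib.MP_6b611a_co.SP.Gap
import Pool.Agent.Lib.MP_6b611a_co.SP.Expand

/-! The stars in the pieces. -/

set_option autoImplicit false

open Finset
open scoped Classical

namespace Pool.Agent.Lib.MP_6b611a_co

section pieces

variable {V E : Type} [Fintype V] [Fintype E]

/-- Multigraphs in which every edge stays in a perfect matching when fewer than `J` other edges are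
deleted. -/
theorem star_robust2 (s t : E → V) (hst : ∀ e, s e ≠ t e) {r k ℓ g τ D J : ℕ} (hk : 2 ≤ k)
    (hcut : ∀ X : Finset V, X.Nonempty → X ≠ univ → r ≤ dd s t X)
    (heven : Even (Fintype.card V)) (hV : 4 ≤ Fintype.card V)
    (hℓ : 2 * Fintype.card V ≤ 2 ^ ℓ) (hkℓ : k ≤ 2 ^ ℓ) (hg : 128 * (k * ℓ) ≤ g) (hgr : g ≤ r)
    (hJ : 2 * (k * ℓ) * (16 * D + (5 * τ + 3) * g) ≤ J * g)
    (hD : ∑ v, (dd s t {v} - r) ≤ D)
    (hτ : ∀ 𝒩 : Finset (Finset V), (∀ X ∈ 𝒩, Odd X.card ∧ 3 ≤ X.card ∧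
        X.card + 3 ≤ Fintype.card V ∧ dd s t X < r + g) →
      (∀ X ∈ 𝒩, ∀ Y ∈ 𝒩, X ≠ Y → Disjoint X Y) → 𝒩.card ≤ τ)
    (hrob : ∀ F : Finset E, F.card < J → ∀ e₀ ∉ F, ∃ M : Finset E, e₀ ∈ M ∧ Disjoint M F ∧
      ∀ x, ∃! e, e ∈ M ∧ x ∈ s(s e, t e))
    (v : V) (e : Fin k → E) (he : Function.Injective e) (hev : ∀ i, v ∈ s(s (e i), t (e i))) :
    ∃ M : Fin k → Finset E, (∀ i, e i ∈ M i) ∧ (∀ i j, i ≠ j → Disjoint (M i) (M j)) ∧
      ∀ i, ∀ x : V, ∃! y : E, y ∈ M i ∧ x ∈ s(s y, t y) := by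
  have hℓ1 : 1 ≤ ℓ := by
    rcases Nat.eq_zero_or_pos ℓ with h0 | h0
    · rw [h0, pow_zero] at hℓ
      omega
    · exact h0
  have hkℓ0 : 1 ≤ k * ℓ := Nat.one_le_iff_ne_zero.2 (by positivity)
  choose w hvw hew using fun i => other_end s t hst v (e i) (hev i)
  obtain ⟨y, z, hy, hy1, hz, hzy, h16, hyr, hyg, hfin⟩ :=
    numbers3 (n := Fintype.card V) hk hV hℓ hkℓ hg hgr hJ
  obtain ⟨c, hc⟩ := pick2 s t (r := r) (by omega) hcut heven (by omega) hy hy1 hz hzy
    (by omega) h16 hyr hgr hyg τ hτ D J hfin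
  have hN : ∀ i, ∃ N : Finset E, N ⊆ (univ.filter fun x => c x = i) ∧
      (∀ x ∈ N, v ∉ s(s x, t x) ∧ w i ∉ s(s x, t x)) ∧
      ∀ x, x ≠ v → x ≠ w i → ∃! y, y ∈ N ∧ x ∈ s(s y, t y) := by
    intro i
    by_contra hcon
    obtain ⟨S, 𝒬, h1, h2, h3, h4, h5, h6, h7, h8⟩ := barrier s t hst heven v (w i) (hvw i) _ hcon
    have h10 : J ≤ (FF s t S 𝒬).card := by
      by_contra hlt
      rw [not_le] at hlt
      have hei : e i ∉ FF s t S 𝒬 := by
        intro h
        unfold FF at h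
        obtain ⟨_, ha, _⟩ := Finset.mem_filter.1 h
        have hs : s (e i) ∈ s(v, w i) := by
          rw [← hew i]
          exact Sym2.mem_mk_left _ _
        rw [Sym2.mem_iff] at hs
        rcases hs with h | h
        · rw [h] at ha
          exact ha h1
        · rw [h] at ha
          exact ha h2
      obtain ⟨M, hM0, hM1, hM2⟩ := hrob _ hlt (e i) hei
      have hvi : v ∈ s(s (e i), t (e i)) := hev i
      have hwi : w i ∈ s(s (e i), t (e i)) := by
        rw [hew i]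
        exact Sym2.mem_mk_right _ _
      have h11 := count_parts s t hst S 𝒬 h4 h5 h6 v (w i) (hvw i) h1 h2 (M.erase (e i))
        (fun x hx => ⟨fun h => Finset.ne_of_mem_erase hx
            ((hM2 v).unique ⟨Finset.mem_of_mem_erase hx, h⟩ ⟨hM0, hvi⟩),
          fun h => Finset.ne_of_mem_erase hx
            ((hM2 (w i)).unique ⟨Finset.mem_of_mem_erase hx, h⟩ ⟨hM0, hwi⟩)⟩)
        (by
          intro x hx1 hx2
          obtain ⟨y, ⟨hy1, hy2⟩, hy3⟩ := hM2 x
          refine ⟨y, ⟨Finset.mem_erase.2 ⟨?_, hy1⟩, hy2⟩, ?_⟩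
          · rintro rfl
            rw [hew i, Sym2.mem_iff] at hy2
            rcases hy2 with h | h
            · exact hx1 h
            · exact hx2 h
          · rintro y' ⟨hy', hy''⟩
            exact hy3 y' ⟨Finset.mem_of_mem_erase hy', hy''⟩)
        (by
          intro x hx hsx htx
          by_contra hX
          push Not at hX
          refine Finset.disjoint_left.1 hM1 (Finset.mem_of_mem_erase hx) ?_
          unfold FF
          refine Finset.mem_filter.2 ⟨Finset.mem_univ _, hsx, htx, fun X hXQ hXx => ?_⟩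
          exact hX X hXQ hXx.1 hXx.2)
      omega
    have h11 := barrier_ineq s t hst hD hcut S 𝒬 ⟨v, h1⟩ h3 h4 h5 h6
    rw [← FF_filter s t hst S 𝒬 h4] at h8 h10
    obtain ⟨x, hx, hxi⟩ := hc i S (𝒬.filter fun X => 3 ≤ X.card)
      (fun X hX => by
        rw [Finset.mem_filter] at hX
        exact ⟨h4 X hX.1, hX.2, part_size heven v (w i) (hvw i) S X h1 h2 (h5 X hX.1) (h4 X hX.1)⟩)
      (fun X hX Y hY => h6 X (Finset.mem_filter.1 hX).1 Y (Finset.mem_filter.1 hY).1)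
      (fun X hX => h5 X (Finset.mem_filter.1 hX).1) h11 h10
    exact h8 x hx (Finset.mem_filter.2 ⟨Finset.mem_univ _, hxi⟩)
  choose N hN1 hN2 hN3 using hN
  refine assemble s t v w e he hew N (fun i j hij => ?_) hN2 hN3
  rw [Finset.disjoint_left]
  intro x hx hx'
  exact hij ((Finset.mem_filter.1 (hN1 i hx)).2.symm.trans (Finset.mem_filter.1 (hN1 j hx')).2)

omit [Fintype E] in
/-- Two vertices. -/
theorem star_two (s t : E → V) (hst : ∀ e, s e ≠ t e) {k : ℕ} (hV : Fintype.card V = 2)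
    (v : V) (e : Fin k → E) (he : Function.Injective e) (hev : ∀ i, v ∈ s(s (e i), t (e i))) :
    ∃ M : Fin k → Finset E, (∀ i, e i ∈ M i) ∧ (∀ i j, i ≠ j → Disjoint (M i) (M j)) ∧
      ∀ i, ∀ x : V, ∃! y : E, y ∈ M i ∧ x ∈ s(s y, t y) := by
  choose w hvw hew using fun i => other_end s t hst v (e i) (hev i)
  have huniv : ∀ i x, x = v ∨ x = w i := by
    intro i x
    by_contra hx
    rw [not_or] at hx
    have h1 : ({x, v, w i} : Finset V).card = 3 :=
      Finset.card_eq_three.2 ⟨x, v, w i, hx.1, hx.2, hvw i, rfl⟩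
    have h2 : ({x, v, w i} : Finset V).card ≤ Fintype.card V := Finset.card_le_univ _
    omega
  refine assemble s t v w e he hew (fun _ => ∅) (fun _ _ _ => Finset.disjoint_empty_left _)
    (fun i x hx => absurd hx (Finset.notMem_empty _)) (fun i x h1 h2 => ?_)
  rcases huniv i x with h | h
  · exact absurd h h1
  · exact absurd h h2

omit [Fintype V] in
/-- A partition of the edges into perfect matchings. -/
theorem star_colour (ends : E → Sym2 V) {r k : ℕ} (c : E → Fin r)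
    (hc : ∀ j, ∀ x : V, ∃! y : E, c y = j ∧ x ∈ ends y) : Star k ends := by
  intro v e he hev
  refine ⟨fun i => univ.filter fun y => c y = c (e i),
    fun i => Finset.mem_filter.2 ⟨Finset.mem_univ _, rfl⟩, ?_, ?_⟩
  · intro i j hij
    rw [Finset.disjoint_left]
    intro y hy hy'
    have h1 : c (e i) = c (e j) :=
      (Finset.mem_filter.1 hy).2.symm.trans (Finset.mem_filter.1 hy').2
    exact hij (he ((hc (c (e j)) v).unique ⟨h1, hev i⟩ ⟨rfl, hev j⟩))
  · intro i x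
    obtain ⟨y, ⟨h1, h2⟩, h3⟩ := hc (c (e i)) x
    refine ⟨y, ⟨Finset.mem_filter.2 ⟨Finset.mem_univ _, h1⟩, h2⟩, ?_⟩
    rintro y' ⟨h4, h5⟩
    exact h3 y' ⟨(Finset.mem_filter.1 h4).2, h5⟩

end pieces

section translation

variable {V E : Type}

/-- The ends of the edges. -/
theorem two_ends (ends : E → Sym2 V) (hloop : ∀ e : E, ¬ (ends e).IsDiag) :
    ∃ s t : E → V, (∀ e, s(s e, t e) = ends e) ∧ ∀ e, s e ≠ t e := by
  have hrep : ∀ e, ∃ p : V × V, s(p.1, p.2) = ends e := by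
    intro e
    induction ends e using Sym2.ind with
    | _ a b => exact ⟨(a, b), rfl⟩
  choose f hf using hrep
  refine ⟨fun e => (f e).1, fun e => (f e).2, hf, ?_⟩
  intro e he
  apply hloop e
  rw [← hf e, Sym2.mk_isDiag_iff]
  exact he

theorem cut_coe [Fintype E] (ends : E → Sym2 V) (s t : E → V) (hf : ∀ e, s(s e, t e) = ends e)
    {r : ℕ}
    (hcut : ∀ X : Set V, X.Nonempty → X ≠ Set.univ →
      r ≤ Nat.card {e : E // ∃ a b : V, a ∈ X ∧ b ∉ X ∧ a ∈ ends e ∧ b ∈ ends e})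
    [Fintype V] (X : Finset V) (h1 : X.Nonempty) (h2 : X ≠ univ) : r ≤ dd s t X := by
  rw [← card_cut ends s t hf X]
  exact hcut (X : Set V) (by exact_mod_cast h1) (fun h => h2 (by
    rw [← Finset.coe_eq_univ]
    exact h))

/-- The families of disjoint sets. -/
theorem fam_coe [Fintype E] [Fintype V] (ends : E → Sym2 V) (s t : E → V)
    (hf : ∀ e, s(s e, t e) = ends e) {m τ : ℕ}
    (hτ : ∀ 𝒩 : Finset (Set V), (∀ X ∈ 𝒩, Odd X.ncard ∧ 3 ≤ X.ncard ∧
        X.ncard + 3 ≤ Nat.card V ∧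
        Nat.card {e : E // ∃ a b : V, a ∈ X ∧ b ∉ X ∧ a ∈ ends e ∧ b ∈ ends e} < m) →
      (∀ X ∈ 𝒩, ∀ Y ∈ 𝒩, X ≠ Y → Disjoint X Y) → 𝒩.card ≤ τ)
    (𝒩 : Finset (Finset V)) (h1 : ∀ X ∈ 𝒩, Odd X.card ∧ 3 ≤ X.card ∧
        X.card + 3 ≤ Fintype.card V ∧ dd s t X < m)
    (h2 : ∀ X ∈ 𝒩, ∀ Y ∈ 𝒩, X ≠ Y → Disjoint X Y) : 𝒩.card ≤ τ := by
  have h3 := hτ (Finset.image (fun X : Finset V => (X : Set V)) 𝒩) (by
    intro X hX
    obtain ⟨Y, hY, rfl⟩ := Finset.mem_image.1 hX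
    obtain ⟨h4, h5, h6, h7⟩ := h1 Y hY
    rw [← card_cut ends s t hf Y] at h7
    rw [Set.ncard_coe_finset, Nat.card_eq_fintype_card]
    exact ⟨h4, h5, h6, h7⟩) (by
    intro X hX Y hY hXY
    obtain ⟨X', hX', rfl⟩ := Finset.mem_image.1 hX
    obtain ⟨Y', hY', rfl⟩ := Finset.mem_image.1 hY
    exact Finset.disjoint_coe.2 (h2 X' hX' Y' hY' fun h => hXY (by rw [h])))
  rw [Finset.card_image_of_injective _ Finset.coe_injective] at h3
  exact h3

/-- The sum of the excesses. -/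
theorem sum_excess [Fintype E] [Fintype V] (ends : E → Sym2 V) (s t : E → V)
    (hf : ∀ e, s(s e, t e) = ends e) (hst : ∀ e, s e ≠ t e) {r D : ℕ}
    (hcut : ∀ X : Set V, X.Nonempty → X ≠ Set.univ →
      r ≤ Nat.card {e : E // ∃ a b : V, a ∈ X ∧ b ∉ X ∧ a ∈ ends e ∧ b ∈ ends e})
    (hV : 4 ≤ Fintype.card V) (hD : 2 * Nat.card E ≤ r * Nat.card V + D) :
    ∑ v, (dd s t {v} - r) ≤ D := by
  rw [Nat.card_eq_fintype_card, Nat.card_eq_fintype_card] at hD
  have h1 := sum_deg s t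
  rw [Finset.filter_true_of_mem (fun e _ => hst e), Finset.card_univ] at h1
  have h2 : ∑ v, (dd s t {v} - r) + Fintype.card V * r = ∑ v, dd s t {v} := by
    rw [← smul_eq_mul, ← Finset.card_univ, ← Finset.sum_const, ← Finset.sum_add_distrib]
    refine Finset.sum_congr rfl fun x _ => ?_
    have h3 : r ≤ dd s t {x} := by
      refine cut_coe ends s t hf hcut {x} (Finset.singleton_nonempty x) ?_
      intro h
      have h4 : ({x} : Finset V).card = Fintype.card V := by rw [h, Finset.card_univ]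
      rw [Finset.card_singleton] at h4
      omega
    omega
  rw [mul_comm r] at hD
  omega

/-- The case with a gap. -/
theorem piece_gap [Finite V] [Finite E] (ends : E → Sym2 V) {r k ℓ D : ℕ} (hk : 2 ≤ k)
    (hloop : ∀ e : E, ¬ (ends e).IsDiag) (hne : Nonempty V) (heven : Even (Nat.card V))
    (hcut : ∀ X : Set V, X.Nonempty → X ≠ Set.univ →
      r ≤ Nat.card {e : E // ∃ a b : V, a ∈ X ∧ b ∉ X ∧ a ∈ ends e ∧ b ∈ ends e})
    (hℓ : 2 * Nat.card V ≤ 2 ^ ℓ) (hkℓ : k ≤ 2 ^ ℓ) (hr : 64 * k * ℓ + 5 * D ≤ r)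
    (hD : 2 * Nat.card E ≤ r * Nat.card V + D)
    (hgap : ∀ X : Set V, Odd X.ncard → 3 ≤ X.ncard → X.ncard + 3 ≤ Nat.card V →
      r + 24 * k * ℓ + 3 * D ≤
        Nat.card {e : E // ∃ a b : V, a ∈ X ∧ b ∉ X ∧ a ∈ ends e ∧ b ∈ ends e})
    (hloc : 0 < D → ∀ S : Set V, 2 * S.ncard = Nat.card V → ∀ v ∈ S,
      min k (Nat.card {e : E // v ∈ ends e ∧ ∀ x ∈ ends e, x ∈ S}) ≤
        Nat.card {e : E // ∀ x ∈ ends e, x ∉ S}) :
    Star k ends := by
  have := Fintype.ofFinite V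
  have := Fintype.ofFinite E
  obtain ⟨s, t, hf, hst⟩ := two_ends ends hloop
  rw [Nat.card_eq_fintype_card] at heven hℓ
  have hpos : 0 < Fintype.card V := Fintype.card_pos
  intro v e he hev
  simp only [← hf] at hev ⊢
  by_cases hV : 4 ≤ Fintype.card V
  · refine star_gap2 s t hst (r := r) (ℓ := ℓ) (D := D) hk (cut_coe ends s t hf hcut) heven hV
      hℓ hkℓ (by rw [← mul_assoc]; exact hr) (sum_excess ends s t hf hst hcut hV hD)
      (fun X h1 h2 h3 => ?_) (fun h0 S hS u hu => ?_) v e he hev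
    · rw [← card_cut ends s t hf X, ← mul_assoc]
      refine hgap (X : Set V) ?_ ?_ ?_
      · rw [Set.ncard_coe_finset]
        exact h1
      · rw [Set.ncard_coe_finset]
        exact h2
      · rw [Set.ncard_coe_finset, Nat.card_eq_fintype_card]
        exact h3
    · have h1 := hloc h0 (S : Set V) (by
        rw [Set.ncard_coe_finset, Nat.card_eq_fintype_card]
        exact hS) u (by exact_mod_cast hu)
      have h2 : Nat.card {e : E // u ∈ ends e ∧ ∀ x ∈ ends e, x ∈ (S : Set V)} =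
          (univ.filter fun x => u ∈ s(s x, t x) ∧ s x ∈ S ∧ t x ∈ S).card := by
        rw [Nat.card_eq_fintype_card, Fintype.card_subtype]
        congr 1
        ext x
        simp only [Finset.mem_filter, ← hf, Sym2.mem_iff, Finset.mem_coe, forall_eq_or_imp,
          forall_eq]
      have h3 : Nat.card {e : E // ∀ x ∈ ends e, x ∉ (S : Set V)} = (FF s t S ∅).card := by
        rw [Nat.card_eq_fintype_card, Fintype.card_subtype]
        unfold FF
        congr 1
        ext x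
        simp only [Finset.mem_filter, ← hf, Sym2.mem_iff, Finset.mem_coe, forall_eq_or_imp,
          forall_eq, Finset.notMem_empty, false_imp_iff, implies_true, and_true]
      rw [h2, h3] at h1
      exact h1
  · refine star_two s t hst ?_ v e he hev
    obtain ⟨a, ha⟩ := heven
    omega

/-- The expanding case. -/
theorem piece_expand [Finite V] [Finite E] (ends : E → Sym2 V) {r k : ℕ} (hk : 2 ≤ k)
    (hloop : ∀ e : E, ¬ (ends e).IsDiag) (heven : Even (Nat.card V))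
    (hreg : ∀ v : V, Nat.card {e : E // v ∈ ends e} = r)
    (hexp : ∀ X : Set V, Odd X.ncard → 3 ≤ X.ncard → 2 * X.ncard ≤ Nat.card V →
      r + (k - 1) * (X.ncard - 1) ≤
        Nat.card {e : E // ∃ a b : V, a ∈ X ∧ b ∉ X ∧ a ∈ ends e ∧ b ∈ ends e}) :
    Star k ends := by
  have := Fintype.ofFinite V
  have := Fintype.ofFinite E
  obtain ⟨s, t, hf, hst⟩ := two_ends ends hloop
  rw [Nat.card_eq_fintype_card] at heven
  have hreg' : ∀ v, dd s t {v} = r := by
    intro v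
    rw [← card_deg ends s t hf hst]
    exact hreg v
  obtain ⟨k, rfl⟩ : ∃ j, k = j + 1 := ⟨k - 1, by omega⟩
  intro v e he hev
  simp only [← hf] at hev ⊢
  refine star_expand heven v k E s t hst r hreg' (fun X h1 h2 => ?_) e he hev
  by_cases h3 : 3 ≤ X.card
  · rw [← card_cut ends s t hf X]
    have h4 := hexp (X : Set V)
    rw [Set.ncard_coe_finset, Nat.card_eq_fintype_card (α := V)] at h4
    exact h4 h1 h3 h2
  · have h4 : X.card = 1 := by
      obtain ⟨a, ha⟩ := h1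
      omega
    obtain ⟨x, rfl⟩ := Finset.card_eq_one.1 h4
    rw [hreg' x, h4]
    omega

/-- The robust case. -/
theorem piece_robust [Finite V] [Finite E] (ends : E → Sym2 V) {r k ℓ g τ D J : ℕ} (hk : 2 ≤ k)
    (hloop : ∀ e : E, ¬ (ends e).IsDiag) (hne : Nonempty V) (heven : Even (Nat.card V))
    (hcut : ∀ X : Set V, X.Nonempty → X ≠ Set.univ →
      r ≤ Nat.card {e : E // ∃ a b : V, a ∈ X ∧ b ∉ X ∧ a ∈ ends e ∧ b ∈ ends e})
    (hℓ : 2 * Nat.card V ≤ 2 ^ ℓ) (hkℓ : k ≤ 2 ^ ℓ) (hg : 128 * k * ℓ ≤ g) (hgr : g ≤ r)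
    (hJ : 2 * k * ℓ * (16 * D + (5 * τ + 3) * g) ≤ J * g)
    (hD : 2 * Nat.card E ≤ r * Nat.card V + D)
    (hτ : ∀ 𝒩 : Finset (Set V), (∀ X ∈ 𝒩, Odd X.ncard ∧ 3 ≤ X.ncard ∧
        X.ncard + 3 ≤ Nat.card V ∧
        Nat.card {e : E // ∃ a b : V, a ∈ X ∧ b ∉ X ∧ a ∈ ends e ∧ b ∈ ends e} < r + g) →
      (∀ X ∈ 𝒩, ∀ Y ∈ 𝒩, X ≠ Y → Disjoint X Y) → 𝒩.card ≤ τ)
    (hrob : ∀ F : Finset E, F.card < J → ∀ e₀ ∉ F, ∃ M : Finset E, e₀ ∈ M ∧ Disjoint M F ∧
      ∀ x, ∃! e, e ∈ M ∧ x ∈ ends e) :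
    Star k ends := by
  have := Fintype.ofFinite V
  have := Fintype.ofFinite E
  obtain ⟨s, t, hf, hst⟩ := two_ends ends hloop
  rw [Nat.card_eq_fintype_card] at heven hℓ
  have hpos : 0 < Fintype.card V := Fintype.card_pos
  intro v e he hev
  simp only [← hf] at hev ⊢
  by_cases hV : 4 ≤ Fintype.card V
  · refine star_robust2 s t hst (r := r) (ℓ := ℓ) (g := g) (τ := τ) (D := D) (J := J) hk
      (cut_coe ends s t hf hcut) heven hV hℓ hkℓ (by rw [← mul_assoc]; exact hg) hgr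
      (by rw [← mul_assoc]; exact hJ) (sum_excess ends s t hf hst hcut hV hD)
      (fam_coe ends s t hf hτ) ?_ v e he hev
    simp only [hf]
    exact hrob
  · refine star_two s t hst ?_ v e he hev
    obtain ⟨a, ha⟩ := heven
    omega

/-- The `k` disjoint perfect matchings. -/
theorem matchings_of_star [Finite V] [Finite E] (ends : E → Sym2 V) {r k : ℕ} (hkr : k ≤ r)
    (hne : Nonempty V) (heven : Even (Nat.card V))
    (hcut : ∀ X : Set V, X.Nonempty → X ≠ Set.univ →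
      r ≤ Nat.card {e : E // ∃ a b : V, a ∈ X ∧ b ∉ X ∧ a ∈ ends e ∧ b ∈ ends e})
    (h : Star k ends) :
    ∃ M : Fin k → Finset E, (∀ i j, i ≠ j → Disjoint (M i) (M j)) ∧
      ∀ i, ∀ x : V, ∃! y : E, y ∈ M i ∧ x ∈ ends y := by
  have := Fintype.ofFinite V
  have := Fintype.ofFinite E
  obtain ⟨v⟩ := hne
  have h1 : ({v} : Set V) ≠ Set.univ := by
    intro h
    have h2 : ({v} : Set V).ncard = Nat.card V := by rw [h, Set.ncard_univ]
    rw [Set.ncard_singleton] at h2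
    rw [← h2] at heven
    exact absurd heven (by decide)
  have h2 := hcut {v} (Set.singleton_nonempty v) h1
  rw [Nat.card_eq_fintype_card] at h2
  have h3 : Fintype.card (Fin k) ≤ Fintype.card
      {e : E // ∃ a b : V, a ∈ ({v} : Set V) ∧ b ∉ ({v} : Set V) ∧ a ∈ ends e ∧ b ∈ ends e} := by
    rw [Fintype.card_fin]
    exact hkr.trans h2
  obtain ⟨f⟩ := Function.Embedding.nonempty_of_card_le h3
  obtain ⟨M, _, h4, h5⟩ := h v (fun i => (f i).1) (fun i j hij => f.injective (Subtype.ext hij))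
    (fun i => by
      obtain ⟨a, b, ha, _, hae, _⟩ := (f i).2
      rw [Set.mem_singleton_iff] at ha
      exact ha ▸ hae)
  exact ⟨M, h4, h5⟩

end translation

end Pool.Agent.Lib.MP_6b611a_co
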