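import Pool.Agent.Lib.MP_6b611a_co.KS.Trans

/-! Contraction of a vertex set, and the splice of perfect matchings along a cut. -/

set_option autoImplicit false

open Finset
open scoped Classical

namespace Pool.Agent.Lib.MP_6b611a_co

/-- `k` distinct edges at a vertex lie in `k` pairwise disjoint perfect matchings. -/
def Star (k : ℕ) {V E : Type} (ends : E → Sym2 V) : Prop :=
  ∀ (v : V) (e : Fin k → E), Function.Injective e → (∀ i, v ∈ ends (e i)) →
    ∃ M : Fin k → Finset E, (∀ i, e i ∈ M i) ∧ (∀ i j, i ≠ j → Disjoint (M i) (M j)) ∧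
      ∀ i, ∀ x : V, ∃! y : E, y ∈ M i ∧ x ∈ ends y

/-- The vertices after the contraction of `X`: `none` stands for `X`. -/
abbrev CVert {V : Type} (X : Set V) : Type := Option {v : V // v ∉ X}

/-- The edges after the contraction of `X`. -/
abbrev CEdge {V E : Type} (ends : E → Sym2 V) (X : Set V) : Type :=
  {e : E // ¬ ∀ v ∈ ends e, v ∈ X}

/-- The image of a vertex. -/
noncomputable def cmap {V : Type} (X : Set V) (v : V) : CVert X :=
  if h : v ∈ X then none else some ⟨v, h⟩

/-- The multigraph after the contraction of `X`. -/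
noncomputable def cends {V E : Type} (ends : E → Sym2 V) (X : Set V) :
    CEdge ends X → Sym2 (CVert X) :=
  fun e => (ends e.1).map (cmap X)

variable {V E : Type}

theorem none_mem_cends (ends : E → Sym2 V) (X : Set V) (e : CEdge ends X) :
    none ∈ cends ends X e ↔ ∃ u ∈ ends e.1, u ∈ X := by
  unfold cends
  rw [Sym2.mem_map]
  refine exists_congr fun u => and_congr_right fun _ => ?_
  unfold cmap
  by_cases h : u ∈ X
  · simp [h]
  · simp [h]

theorem some_mem_cends (ends : E → Sym2 V) (X : Set V) (e : CEdge ends X) (x : V)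
    (hx : x ∉ X) : some ⟨x, hx⟩ ∈ cends ends X e ↔ x ∈ ends e.1 := by
  unfold cends
  rw [Sym2.mem_map]
  constructor
  · rintro ⟨u, hu, h⟩
    unfold cmap at h
    by_cases hu2 : u ∈ X
    · rw [dif_pos hu2] at h
      exact absurd h (by simp)
    · rw [dif_neg hu2] at h
      simp only [Option.some.injEq, Subtype.mk.injEq] at h
      rw [← h]
      exact hu
  · intro h
    refine ⟨x, h, ?_⟩
    unfold cmap
    rw [dif_neg hx]

/-- The splice, for a vertex outside `X`. -/
theorem splice_aux (k : ℕ) (ends : E → Sym2 V) (X : Set V)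
    (h1 : Star k (cends ends X)) (h2 : Star k (cends ends Xᶜ)) (v : V) (hv : v ∉ X)
    (e : Fin k → E) (he : Function.Injective e) (hev : ∀ i, v ∈ ends (e i)) :
    ∃ M : Fin k → Finset E, (∀ i, e i ∈ M i) ∧ (∀ i j, i ≠ j → Disjoint (M i) (M j)) ∧
      ∀ i, ∀ x : V, ∃! y : E, y ∈ M i ∧ x ∈ ends y := by
  obtain ⟨M1, hM1, hM1d, hM1p⟩ := h1 (some ⟨v, hv⟩)
    (fun i => ⟨e i, fun h => hv (h v (hev i))⟩)
    (fun i j hij => he (by simpa using hij))
    (fun i => (some_mem_cends ends X _ v hv).2 (hev i))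
  choose g hg using fun i => (hM1p i none)
  simp only at hg
  have hgX : ∀ i, ∃ u ∈ ends (g i).1, u ∈ X := fun i => (none_mem_cends ends X _).1 (hg i).1.2
  have hgY : ∀ i, ∃ u ∈ ends (g i).1, u ∉ X := by
    intro i
    have := (g i).2
    push Not at this
    exact this
  have hginj : Function.Injective fun i => (g i).1 := by
    intro i j hij
    by_contra hne
    have h3 : g i = g j := Subtype.ext hij
    have h4 := (hg i).1.1
    rw [h3] at h4
    exact Finset.disjoint_left.1 (hM1d i j hne) h4 (hg j).1.1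
  obtain ⟨M2, hM2, hM2d, hM2p⟩ := h2 none
    (fun i => ⟨(g i).1, fun h => by
      obtain ⟨u, hu, huX⟩ := hgX i
      have := h u hu
      rw [Set.mem_compl_iff] at this
      exact this huX⟩)
    (fun i j hij => hginj (by simpa using hij))
    (fun i => (none_mem_cends ends Xᶜ _).2 (by
      obtain ⟨u, hu, huX⟩ := hgY i
      exact ⟨u, hu, (Set.mem_compl_iff _ _).2 huX⟩))
  -- the edges of `M1` with an end in `X`, and those of `M2` with an end outside `X`
  have key1 : ∀ i, ∀ y : CEdge ends X, y ∈ M1 i → (∃ u ∈ ends y.1, u ∈ X) → y = g i := by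
    intro i y hy hu
    exact (hg i).2 y ⟨hy, (none_mem_cends ends X _).2 hu⟩
  have key2 : ∀ i, ∀ y : CEdge ends Xᶜ, y ∈ M2 i → (∃ u ∈ ends y.1, u ∉ X) → y.1 = (g i).1 := by
    intro i y hy hu
    have h3 := (hM2p i none).unique
      ⟨hy, (none_mem_cends ends Xᶜ _).2 (by
        obtain ⟨u, hu, huX⟩ := hu
        exact ⟨u, hu, (Set.mem_compl_iff _ _).2 huX⟩)⟩
      ⟨hM2 i, (none_mem_cends ends Xᶜ _).2 (by
        obtain ⟨u, hu, huX⟩ := hgY i
        exact ⟨u, hu, (Set.mem_compl_iff _ _).2 huX⟩)⟩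
    rw [h3]
  have out1 : ∀ y : CEdge ends X, ∃ u ∈ ends y.1, u ∉ X := by
    intro y
    have := y.2
    push Not at this
    exact this
  have out2 : ∀ y : CEdge ends Xᶜ, ∃ u ∈ ends y.1, u ∈ X := by
    intro y
    have := y.2
    push Not at this
    obtain ⟨u, hu, hu2⟩ := this
    rw [Set.mem_compl_iff, not_not] at hu2
    exact ⟨u, hu, hu2⟩
  have hgM2 : ∀ i, ∃ y ∈ M2 i, y.1 = (g i).1 := fun i => ⟨_, hM2 i, rfl⟩
  refine ⟨fun i => (M1 i).map (Function.Embedding.subtype _) ∪
    (M2 i).map (Function.Embedding.subtype _), ?_, ?_, ?_⟩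
  · intro i
    rw [Finset.mem_union, Finset.mem_map]
    exact Or.inl ⟨_, hM1 i, rfl⟩
  · intro i j hij
    rw [Finset.disjoint_left]
    intro y hy hy'
    rw [Finset.mem_union, Finset.mem_map, Finset.mem_map] at hy hy'
    have hne : (g i).1 ≠ (g j).1 := fun h => hij (hginj h)
    rcases hy with ⟨a, ha, rfl⟩ | ⟨a, ha, rfl⟩
    · rcases hy' with ⟨b, hb, hab⟩ | ⟨b, hb, hab⟩
      · have h3 : b = a := Subtype.ext hab
        rw [h3] at hb
        exact Finset.disjoint_left.1 (hM1d i j hij) ha hb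
      · have h3 : b.1 = a.1 := hab
        have h4 : a = g i := key1 i a ha (by rw [← h3]; exact out2 b)
        have h5 : b.1 = (g j).1 := key2 j b hb (by rw [h3]; exact out1 a)
        apply hne
        rw [← h5, h3, h4]
    · rcases hy' with ⟨b, hb, hab⟩ | ⟨b, hb, hab⟩
      · have h3 : b.1 = a.1 := hab
        have h4 : b = g j := key1 j b hb (by rw [h3]; exact out2 a)
        have h5 : a.1 = (g i).1 := key2 i a ha (by rw [← h3]; exact out1 b)
        apply hne
        rw [← h5, ← h3, h4]
      · have h3 : b = a := Subtype.ext hab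
        rw [h3] at hb
        exact Finset.disjoint_left.1 (hM2d i j hij) ha hb
  · intro i x
    by_cases hx : x ∈ X
    · have hx' : x ∉ Xᶜ := by
        rw [Set.mem_compl_iff, not_not]
        exact hx
      obtain ⟨y, ⟨hy, hyx⟩, hyu⟩ := hM2p i (some ⟨x, hx'⟩)
      rw [some_mem_cends] at hyx
      refine ⟨y.1, ⟨?_, hyx⟩, ?_⟩
      · rw [Finset.mem_union, Finset.mem_map, Finset.mem_map]
        exact Or.inr ⟨y, hy, rfl⟩
      · rintro y' ⟨hy', hyx'⟩
        rw [Finset.mem_union, Finset.mem_map, Finset.mem_map] at hy'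
        rcases hy' with ⟨a, ha, rfl⟩ | ⟨a, ha, rfl⟩
        · have h4 : a = g i := key1 i a ha ⟨x, hyx', hx⟩
          obtain ⟨b, hb, hbg⟩ := hgM2 i
          have h5 : b.1 = a.1 := by rw [hbg, h4]
          have h6 : b = y := hyu b ⟨hb, (some_mem_cends ends Xᶜ b x hx').2 (by
            rw [h5]
            exact hyx')⟩
          change a.1 = y.1
          rw [← h5, h6]
        · have h6 : a = y := hyu a ⟨ha, (some_mem_cends ends Xᶜ a x hx').2 hyx'⟩
          change a.1 = y.1
          rw [h6]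
    · obtain ⟨y, ⟨hy, hyx⟩, hyu⟩ := hM1p i (some ⟨x, hx⟩)
      rw [some_mem_cends] at hyx
      refine ⟨y.1, ⟨?_, hyx⟩, ?_⟩
      · rw [Finset.mem_union, Finset.mem_map, Finset.mem_map]
        exact Or.inl ⟨y, hy, rfl⟩
      · rintro y' ⟨hy', hyx'⟩
        rw [Finset.mem_union, Finset.mem_map, Finset.mem_map] at hy'
        rcases hy' with ⟨a, ha, rfl⟩ | ⟨a, ha, rfl⟩
        · have h6 : a = y := hyu a ⟨ha, (some_mem_cends ends X a x hx).2 hyx'⟩
          change a.1 = y.1
          rw [h6]
        · have h5 : a.1 = (g i).1 := key2 i a ha ⟨x, hyx', hx⟩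
          have h6 : g i = y := hyu (g i) ⟨(hg i).1.1, (some_mem_cends ends X (g i) x hx).2 (by
            rw [← h5]
            exact hyx')⟩
          change a.1 = y.1
          rw [h5, h6]

/-- The splice. -/
theorem splice (k : ℕ) (ends : E → Sym2 V) (X : Set V)
    (h1 : Star k (cends ends X)) (h2 : Star k (cends ends Xᶜ)) : Star k ends := by
  intro v e he hev
  by_cases hv : v ∈ X
  · have hv' : v ∉ Xᶜ := by
      rw [Set.mem_compl_iff, not_not]
      exact hv
    have h3 : Star k (cends ends Xᶜᶜ) := by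
      rw [compl_compl]
      exact h1
    exact splice_aux k ends Xᶜ h2 h3 v hv' e he hev
  · exact splice_aux k ends X h1 h2 v hv e he hev

end Pool.Agent.Lib.MP_6b611a_co
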